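import Pool.Agent.HDC.Stm

/-!
# HDC, piece ARC (helper51): walks along the Hamilton cycle
-/

set_option autoImplicit false

namespace Pool.Agent.HDC

namespace ARC

variable {V : Type} {G : SimpleGraph V} {n : ℕ} {φ : ℕ → V}

theorem per_mul (h : Lab G n φ) (i k : ℕ) : φ (i + n * k) = φ i := by
  induction k with
  | zero => rw [Nat.mul_zero, Nat.add_zero]
  | succ k ih =>
    rw [Nat.mul_succ, ← Nat.add_assoc, h.per, ih]

theorem mod_eq (h : Lab G n φ) (i : ℕ) : φ i = φ (i % n) := by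
  conv_lhs => rw [← Nat.mod_add_div i n]
  exact per_mul h _ _

theorem inj_win (h : Lab G n φ) (z i j : ℕ) (h1 : z ≤ i) (h2 : i < z + n) (h3 : z ≤ j)
    (h4 : j < z + n) (he : φ i = φ j) : i = j := by
  have hn : 0 < n := by have := h.three; omega
  have hm : i % n = j % n := by
    apply h.inj _ _ (Nat.mod_lt _ hn) (Nat.mod_lt _ hn)
    rw [← mod_eq h, ← mod_eq h]
    exact he
  rcases Nat.le_total i j with hij | hij
  · have hd : n ∣ j - i := (Nat.modEq_iff_dvd' hij).1 hm
    have := Nat.eq_zero_of_dvd_of_lt hd (by omega)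
    omega
  · have hd : n ∣ i - j := (Nat.modEq_iff_dvd' hij).1 hm.symm
    have := Nat.eq_zero_of_dvd_of_lt hd (by omega)
    omega

theorem up (h : Lab G n φ) (z a : ℕ) (hz : z ≤ a) : ∀ d : ℕ, a + d < z + n →
    ∃ p : G.Walk (φ a) (φ (a + d)), p.IsPath ∧ p.length = d ∧
      (∀ v ∈ p.support, ∃ i, (a ≤ i ∧ i ≤ a + d) ∧ v = φ i) ∧ ∀ e ∈ p.edges, e ∈ Cy φ := by
  intro d
  induction d with
  | zero =>
    intro _
    refine ⟨SimpleGraph.Walk.nil, SimpleGraph.Walk.IsPath.nil, rfl, ?_, ?_⟩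
    · intro v hv
      rw [SimpleGraph.Walk.support_nil, List.mem_singleton] at hv
      exact ⟨a, ⟨le_rfl, le_rfl⟩, hv⟩
    · intro e he
      rw [SimpleGraph.Walk.edges_nil] at he
      exact absurd he List.not_mem_nil
  | succ d ih =>
    intro hd
    obtain ⟨p, hp, hl, hs, he⟩ := ih (by omega)
    have hadj : G.Adj (φ (a + d)) (φ (a + (d + 1))) := h.adj (a + d)
    refine ⟨p.concat hadj, ?_, ?_, ?_, ?_⟩
    · refine hp.concat ?_ hadj
      intro hv
      obtain ⟨i, ⟨h1, h2⟩, h3⟩ := hs _ hv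
      have := inj_win h z (a + (d + 1)) i (by omega) hd (by omega) (by omega) h3
      omega
    · rw [SimpleGraph.Walk.length_concat, hl]
    · intro v hv
      rw [SimpleGraph.Walk.support_concat, List.mem_append, List.mem_singleton] at hv
      rcases hv with hv | hv
      · obtain ⟨i, ⟨h1, h2⟩, h3⟩ := hs _ hv
        exact ⟨i, ⟨h1, by omega⟩, h3⟩
      · exact ⟨a + (d + 1), ⟨by omega, le_rfl⟩, hv⟩
    · intro e hv
      rw [SimpleGraph.Walk.edges_concat, List.concat_eq_append, List.mem_append, List.mem_singleton] at hv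
      rcases hv with hv | hv
      · exact he _ hv
      · exact ⟨a + d, hv⟩

end ARC

theorem t_ARC : S_ARC := by
  intro V G n φ h z a b ha1 ha2 hb1 hb2
  rcases Nat.le_total a b with hab | hab
  · obtain ⟨d, rfl⟩ := Nat.exists_eq_add_of_le hab
    obtain ⟨p, hp, hl, hs, he⟩ := ARC.up h z a ha1 d hb2
    refine ⟨p, hp, by rw [hl]; omega, ?_, he⟩
    intro v hv
    obtain ⟨i, h1, h2⟩ := hs v hv
    exact ⟨i, Or.inl h1, h2⟩
  · obtain ⟨d, rfl⟩ := Nat.exists_eq_add_of_le hab
    obtain ⟨p, hp, hl, hs, he⟩ := ARC.up h z b hb1 d ha2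
    refine ⟨p.reverse, hp.reverse, by rw [SimpleGraph.Walk.length_reverse, hl]; omega, ?_, ?_⟩
    · intro v hv
      rw [SimpleGraph.Walk.support_reverse, List.mem_reverse] at hv
      obtain ⟨i, h1, h2⟩ := hs v hv
      exact ⟨i, Or.inr h1, h2⟩
    · intro e hv
      rw [SimpleGraph.Walk.edges_reverse, List.mem_reverse] at hv
      exact he e hv

end Pool.Agent.HDC
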