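import Pool.Agent.HDC.Stm

/-!
# Project HDC, piece CNT (helper91): counting
-/

set_option autoImplicit false

namespace Pool.Agent.HDC

namespace Cnt

open SimpleGraph

variable {n : ℕ} {G : SimpleGraph (Fin n)} {φ : ℕ → Fin n}

theorem cyc_eq (hD : Dcl G) {T T' : Set (Sym2 (Fin n))} {l : ℕ} (h : HasCyc G φ T l)
    (h' : HasCyc G φ T' l) : T = T' := by
  obtain ⟨u, p, hp, hl, hT⟩ := h
  obtain ⟨v, q, hq, hl', hT'⟩ := h'
  ext e
  rw [← hT, ← hT', hD u v p q hp hq (hl.trans hl'.symm) e]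

theorem three_le {T : Set (Sym2 (Fin n))} {l : ℕ} (h : HasCyc G φ T l) : 3 ≤ l := by
  obtain ⟨u, p, hp, hl, hT⟩ := h
  rw [← hl]
  exact hp.three_le_length

theorem le_n {T : Set (Sym2 (Fin n))} {l : ℕ} (h : HasCyc G φ T l) : l ≤ n := by
  obtain ⟨u, p, hp, hl, hT⟩ := h
  have h1 := hp.support_nodup.length_le_card
  rw [Fintype.card_fin, List.length_tail, SimpleGraph.Walk.length_support] at h1
  omega

theorem perq (hL : Lab G n φ) (q : ℕ) : ∀ r, φ (r + n * q) = φ r := by
  induction q with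
  | zero => intro r; rw [Nat.mul_zero, Nat.add_zero]
  | succ q ih => intro r; rw [Nat.mul_succ, ← Nat.add_assoc, hL.per, ih]

theorem card_le (hL : Lab G n φ) (D : Finset (Sym2 (Fin n)))
    (hD : ∀ e, e ∈ D ↔ e ∈ G.edgeSet ∧ e ∉ Cy φ) : G.edgeSet.ncard ≤ n + D.card := by
  classical
  have hsub : G.edgeSet ⊆ ((((Finset.range n).image fun i => s(φ i, φ (i + 1))) ∪ D :
      Finset (Sym2 (Fin n))) : Set (Sym2 (Fin n))) := by
    intro e he
    rw [Finset.mem_coe, Finset.mem_union]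
    by_cases hc : e ∈ Cy φ
    · left
      obtain ⟨i, rfl⟩ := hc
      refine Finset.mem_image.2 ⟨i % n, Finset.mem_range.2 (Nat.mod_lt _ ?_), ?_⟩
      · have := hL.three
        omega
      · have h1 : φ (i % n) = φ i := by
          have h2 := perq hL (i / n) (i % n)
          rw [Nat.mod_add_div] at h2
          exact h2.symm
        have h3 : φ (i % n + 1) = φ (i + 1) := by
          have h2 := perq hL (i / n) (i % n + 1)
          have h4 : i % n + 1 + n * (i / n) = i + 1 := by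
            have := Nat.mod_add_div i n
            omega
          rw [h4] at h2
          exact h2.symm
        rw [h1, h3]
    · right
      exact (hD e).2 ⟨he, hc⟩
  calc G.edgeSet.ncard ≤ _ := Set.ncard_le_ncard hsub (Finset.finite_toSet _)
    _ = _ := Set.ncard_coe_finset _
    _ ≤ _ := Finset.card_union_le _ _
    _ ≤ n + D.card := by
      refine Nat.add_le_add_right ?_ _
      exact Finset.card_image_le.trans (Finset.card_range n).le

end Cnt

open Cnt in
theorem t_CNT (hWIN : S_WIN) (hKEY : S_KEY) : S_CNT := by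
  classical
  intro n G φ hL hDcl
  obtain ⟨D, hD⟩ : ∃ D : Finset (Sym2 (Fin n)), ∀ e, e ∈ D ↔ e ∈ G.edgeSet ∧ e ∉ Cy φ :=
    ⟨Finset.univ.filter fun e => e ∈ G.edgeSet ∧ e ∉ Cy φ, fun e => by
      rw [Finset.mem_filter]
      exact and_iff_right (Finset.mem_univ _)⟩
  have hE := card_le hL D hD
  rcases Nat.eq_zero_or_pos D.card with h0 | hpos
  · refine ⟨0, 0, by omega, by omega, fun ℓ _ => ?_⟩
    simp
  -- the triples
  obtain ⟨T, hT⟩ : ∃ T : Finset (Sym2 (Fin n) × Sym2 (Fin n) × Sym2 (Fin n)), ∀ x, x ∈ T ↔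
      (x.1 ∈ D ∧ x.2.1 ∈ D ∧ x.2.2 ∈ D) ∧ x.1 ≠ x.2.1 ∧ x.1 ≠ x.2.2 ∧ x.2.1 ≠ x.2.2 ∧
        ∃ l, HasCyc G φ {x.1, x.2.1, x.2.2} l :=
    ⟨(D ×ˢ D ×ˢ D).filter fun x => x.1 ≠ x.2.1 ∧ x.1 ≠ x.2.2 ∧ x.2.1 ≠ x.2.2 ∧
        ∃ l, HasCyc G φ {x.1, x.2.1, x.2.2} l, fun x => by
      rw [Finset.mem_filter, Finset.mem_product, Finset.mem_product]⟩
  have hTcard : T.card ≤ 27 * (n + 1) := by
    let L : Sym2 (Fin n) × Sym2 (Fin n) × Sym2 (Fin n) → ℕ := fun x =>
      if h : ∃ l, HasCyc G φ {x.1, x.2.1, x.2.2} l then h.choose else 0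
    have hLs : ∀ x ∈ T, HasCyc G φ {x.1, x.2.1, x.2.2} (L x) := by
      intro x hx
      have h := ((hT x).1 hx).2.2.2.2
      have h1 : L x = h.choose := dif_pos h
      rw [h1]
      exact h.choose_spec
    have h1 : T.card ≤ 27 * (T.image L).card := by
      refine Finset.card_le_mul_card_image T 27 fun l hl => ?_
      rcases (T.filter fun x => L x = l).eq_empty_or_nonempty with he | ⟨x0, hx0⟩
      · rw [he]
        exact Nat.zero_le _
      · obtain ⟨hx0T, hx0l⟩ := Finset.mem_filter.1 hx0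
        have hsub : (T.filter fun x => L x = l) ⊆
            ({x0.1, x0.2.1, x0.2.2} : Finset (Sym2 (Fin n))) ×ˢ
              ({x0.1, x0.2.1, x0.2.2} : Finset (Sym2 (Fin n))) ×ˢ
                ({x0.1, x0.2.1, x0.2.2} : Finset (Sym2 (Fin n))) := by
          intro x hx
          obtain ⟨hxT, hxl⟩ := Finset.mem_filter.1 hx
          have h2 : ({x.1, x.2.1, x.2.2} : Set (Sym2 (Fin n))) = {x0.1, x0.2.1, x0.2.2} := by
            refine cyc_eq (φ := φ) (l := l) hDcl ?_ ?_
            · rw [← hxl]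
              exact hLs x hxT
            · rw [← hx0l]
              exact hLs x0 hx0T
          have h3 : ∀ e, e ∈ ({x.1, x.2.1, x.2.2} : Set (Sym2 (Fin n))) →
              e ∈ ({x0.1, x0.2.1, x0.2.2} : Finset (Sym2 (Fin n))) := by
            intro e he
            rw [h2] at he
            simpa using he
          rw [Finset.mem_product, Finset.mem_product]
          exact ⟨h3 _ (by simp), h3 _ (by simp), h3 _ (by simp)⟩
        have h4 : ({x0.1, x0.2.1, x0.2.2} : Finset (Sym2 (Fin n))).card ≤ 3 :=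
          Finset.card_le_three
        refine (Finset.card_le_card hsub).trans ?_
        rw [Finset.card_product, Finset.card_product]
        calc _ ≤ 3 * (3 * 3) := Nat.mul_le_mul h4 (Nat.mul_le_mul h4 h4)
          _ = 27 := by norm_num
    have h2 : (T.image L).card ≤ n + 1 := by
      have h3 : T.image L ⊆ Finset.range (n + 1) := by
        intro l hl
        obtain ⟨x, hx, rfl⟩ := Finset.mem_image.1 hl
        exact Finset.mem_range.2 (Nat.lt_succ_of_le (le_n (hLs x hx)))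
      exact (Finset.card_le_card h3).trans (Finset.card_range _).le
    exact h1.trans (Nat.mul_le_mul_left _ h2)
  -- the root chord
  obtain ⟨r, hr, hrb⟩ : ∃ r ∈ D, D.card * (T.filter fun x => x.1 = r).card ≤ T.card := by
    refine Finset.exists_le_of_sum_le (Finset.card_pos.1 hpos) (le_of_eq ?_)
    rw [← Finset.mul_sum, Finset.sum_const, smul_eq_mul]
    congr 1
    exact (Finset.card_eq_sum_card_fiberwise fun x hx => ((hT x).1 hx).1.1).symm
  refine ⟨D.card, (T.filter fun x => x.1 = r).card, hE, hrb.trans hTcard, fun ℓ hℓ => ?_⟩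
  obtain ⟨u, hu, hkey⟩ := hKEY (Fin n) G n φ hL r ((hD r).1 hr).1 ((hD r).1 hr).2
  have hBm : ∀ c c', (c, c') ∈ (T.filter fun x => x.1 = r).image Prod.snd ↔
      (r, c, c') ∈ T := by
    intro c c'
    rw [Finset.mem_image]
    constructor
    · rintro ⟨⟨r', d, d'⟩, hx, he⟩
      obtain ⟨hxT, hxr⟩ := Finset.mem_filter.1 hx
      have h1 : r' = r := hxr
      have h2 : (d, d') = (c, c') := he
      rw [h1, h2] at hxT
      exact hxT
    · intro h
      exact ⟨(r, c, c'), Finset.mem_filter.2 ⟨h, rfl⟩, rfl⟩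
  have hcyc : ∀ i ∈ D.erase r, ∀ j ∈ D.erase r, i ≠ j →
      (i, j) ∉ (T.filter fun x => x.1 = r).image Prod.snd →
      HasCyc G φ {i, j} ((u i - u j) + (u j - u i) + 2) := by
    intro i hi j hj hij hB
    obtain ⟨hir, hiD⟩ := Finset.mem_erase.1 hi
    obtain ⟨hjr, hjD⟩ := Finset.mem_erase.1 hj
    rcases hkey i j ((hD i).1 hiD).1 ((hD i).1 hiD).2 ((hD j).1 hjD).1 ((hD j).1 hjD).2 hij hir hjr
      with h | h
    · exfalso
      refine hB ((hBm i j).2 ((hT _).2 ⟨⟨hr, hiD, hjD⟩, Ne.symm hir, Ne.symm hjr, hij, h⟩))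
    · exact h
  have hw := hWIN (Sym2 (Fin n)) (D.erase r) u ((T.filter fun x => x.1 = r).image Prod.snd) n ℓ hℓ
    (fun i _ => hu i) ?_ ?_ ?_
  · rw [Finset.card_erase_of_mem hr] at hw
    refine hw.trans (Nat.mul_le_mul_left _ (Nat.add_le_add_left Finset.card_image_le _))
  · intro i hi j hj hij hB he
    have h := three_le (hcyc i hi j hj hij hB)
    rw [he] at h
    omega
  · intro i hi j hj i' hi' j' hj' hij hij' hB hB' hlt hlt' hd
    have h1 := hcyc i hi j hj hij hB
    have h2 := hcyc i' hi' j' hj' hij' hB'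
    have e1 : (u i - u j) + (u j - u i) + 2 = (u j - u i) + 2 := by omega
    have e2 : (u i' - u j') + (u j' - u i') + 2 = (u j - u i) + 2 := by omega
    rw [e1] at h1
    rw [e2] at h2
    have h3 := cyc_eq hDcl h1 h2
    have h4 : i ∈ ({i', j'} : Set (Sym2 (Fin n))) := by rw [← h3]; exact Or.inl rfl
    have h5 : j ∈ ({i', j'} : Set (Sym2 (Fin n))) := by rw [← h3]; exact Or.inr rfl
    rcases h4 with h4 | h4
    · rcases h5 with h5 | h5
      · exact absurd (h4.trans h5.symm) hij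
      · exact ⟨h4, h5⟩
    · rcases h5 with h5 | h5
      · rw [h4, h5] at hlt
        omega
      · have h5' : j = j' := h5
        have h4' : i = j' := h4
        exact absurd (h4'.trans h5'.symm) hij
  · intro i j h
    have h1 := (hT _).1 ((hBm i j).1 h)
    refine (hBm j i).2 ((hT _).2 ⟨⟨h1.1.1, h1.1.2.2, h1.1.2.1⟩, h1.2.2.1, h1.2.1,
      Ne.symm h1.2.2.2.1, ?_⟩)
    obtain ⟨l, hl⟩ := h1.2.2.2.2
    refine ⟨l, ?_⟩
    have h2 : ({r, j, i} : Set (Sym2 (Fin n))) = {r, i, j} := by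
      rw [Set.pair_comm]
    exact h2 ▸ hl

end Pool.Agent.HDC
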