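import Pool.Agent.HDC.Stm

set_option autoImplicit false

namespace Pool.Agent.HDC

theorem cyc2_mod {V : Type} (n : ℕ) (φ : ℕ → V) (per : ∀ i, φ (i + n) = φ i) (i : ℕ) :
    φ i = φ (i % n) := by
  have key : ∀ k j : ℕ, φ (j + n * k) = φ j := by
    intro k
    induction k with
    | zero => intro j; simp
    | succ k ih =>
      intro j
      have h1 : j + n * (k + 1) = (j + n * k) + n := by ring
      rw [h1, per, ih]
  have h2 := key (i / n) (i % n)
  rw [Nat.mod_add_div] at h2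
  exact h2

theorem cyc2_inj {V : Type} {G : SimpleGraph V} {n : ℕ} {φ : ℕ → V} (L : Lab G n φ) (z i j : ℕ)
    (hi : z ≤ i ∧ i < z + n) (hj : z ≤ j ∧ j < z + n) (h : φ i = φ j) : i = j := by
  have hn : 0 < n := by have := L.three; omega
  rw [cyc2_mod n φ L.per i, cyc2_mod n φ L.per j] at h
  have h1 := L.inj _ _ (Nat.mod_lt i hn) (Nat.mod_lt j hn) h
  have h2 : i ≡ j [MOD n] := h1
  rcases le_total i j with hij | hij
  · have h3 : n ∣ j - i := (Nat.modEq_iff_dvd' hij).1 h2
    have h4 : j - i = 0 := Nat.eq_zero_of_dvd_of_lt h3 (by omega)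
    omega
  · have h3 : n ∣ i - j := (Nat.modEq_iff_dvd' hij).1 h2.symm
    have h4 : i - j = 0 := Nat.eq_zero_of_dvd_of_lt h3 (by omega)
    omega

theorem t_CYC2 (hARC : S_ARC) : S_CYC2 := by
  intro V G n φ L z a1 b1 a2 b2 ha1 hb1 ha2 hb2 hD h1 h2 hne
  obtain ⟨w1, p1, l1, s1, e1⟩ := hARC V G n φ L z a1 b1 ha1.1 ha1.2 hb1.1 hb1.2
  obtain ⟨w2, p2, l2, s2, e2⟩ := hARC V G n φ L z a2 b2 ha2.1 ha2.2 hb2.1 hb2.2
  have hdis : ∀ x ∈ w1.support, ∀ y ∈ w2.support, x ≠ y := by
    intro x hx y hy hxy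
    obtain ⟨i, hi, rfl⟩ := s1 x hx
    obtain ⟨j, hj, rfl⟩ := s2 y hy
    have hij : i = j := cyc2_inj L z i j (by omega) (by omega) hxy
    unfold Dj at hD
    omega
  have hb2n : φ b2 ∉ w1.support := by
    intro h
    exact hdis _ h _ w2.end_mem_support rfl
  have ha1n : φ a1 ∉ w2.support := by
    intro h
    exact hdis _ w1.start_mem_support _ h rfl
  let q : G.Walk (φ a1) (φ b2) := w1.append (SimpleGraph.Walk.cons h1.1 w2)
  have hq : q.IsPath := by
    rw [SimpleGraph.Walk.isPath_def]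
    show (w1.append (SimpleGraph.Walk.cons h1.1 w2)).support.Nodup
    rw [SimpleGraph.Walk.support_append, SimpleGraph.Walk.support_cons, List.tail_cons,
      List.nodup_append]
    exact ⟨p1.support_nodup, p2.support_nodup, hdis⟩
  have hqe : ∀ e, e ∈ q.edges ↔ e ∈ w1.edges ∨ e = s(φ b1, φ a2) ∨ e ∈ w2.edges := by
    intro e
    show e ∈ (w1.append (SimpleGraph.Walk.cons h1.1 w2)).edges ↔ _
    rw [SimpleGraph.Walk.edges_append, SimpleGraph.Walk.edges_cons, List.mem_append,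
      List.mem_cons]
  have hnot : s(φ b2, φ a1) ∉ q.edges := by
    rw [hqe]
    rintro (h | h | h)
    · exact hb2n (SimpleGraph.Walk.fst_mem_support_of_mem_edges _ h)
    · exact hne h.symm
    · exact ha1n (SimpleGraph.Walk.snd_mem_support_of_mem_edges _ h)
  refine ⟨φ b2, SimpleGraph.Walk.cons h2.1 q, ?_, ?_, ?_⟩
  · rw [SimpleGraph.Walk.cons_isCycle_iff]
    exact ⟨hq, hnot⟩
  · rw [SimpleGraph.Walk.length_cons]
    show (w1.append (SimpleGraph.Walk.cons h1.1 w2)).length + 1 = _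
    rw [SimpleGraph.Walk.length_append, SimpleGraph.Walk.length_cons, l1, l2]
    omega
  · intro e
    rw [SimpleGraph.Walk.edges_cons, List.mem_cons, hqe]
    simp only [Set.mem_insert_iff, Set.mem_singleton_iff]
    constructor
    · rintro ⟨h | h | h | h, hc⟩
      · exact Or.inr h
      · exact absurd (e1 e h) hc
      · exact Or.inl h
      · exact absurd (e2 e h) hc
    · rintro (h | h)
      · exact ⟨Or.inr (Or.inr (Or.inl h)), by rw [h]; exact h1.2⟩
      · exact ⟨Or.inl h, by rw [h]; exact h2.2⟩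

end Pool.Agent.HDC
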