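import Pool.Agent.HDC.Stm

/-!
# PROJECT HDC (helper33), piece CYC3 (helper72): cycle of three arcs and three chords
-/

set_option autoImplicit false

namespace Pool.Agent.HDC

theorem CYC3_injw {V : Type} {G : SimpleGraph V} {n : ℕ} {φ : ℕ → V} (h : Lab G n φ) {z i j : ℕ}
    (hi : z ≤ i) (hi' : i < z + n) (hj : z ≤ j) (hj' : j < z + n) (he : φ i = φ j) : i = j := by
  have hn : 0 < n := by have := h.three; omega
  have hper : ∀ i, φ (i % n) = φ i := fun i =>
    Function.Periodic.map_mod_nat (h.per : Function.Periodic φ n) i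
  have h1 : i % n = j % n := by
    apply h.inj _ _ (Nat.mod_lt _ hn) (Nat.mod_lt _ hn)
    rw [hper, hper, he]
  rcases le_total i j with hij | hij
  · have h2 : n ∣ j - i := (Nat.modEq_iff_dvd' hij).1 h1
    have h3 := Nat.eq_zero_of_dvd_of_lt h2 (by omega)
    omega
  · have h2 : n ∣ i - j := (Nat.modEq_iff_dvd' hij).1 h1.symm
    have h3 := Nat.eq_zero_of_dvd_of_lt h2 (by omega)
    omega

theorem t_CYC3 (hA : S_ARC) : S_CYC3 := by
  intro V G n φ hL z a1 b1 a2 b2 a3 b3 ha1 hb1 ha2 hb2 ha3 hb3 d12 d13 d23 c12 c23 c31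
  obtain ⟨w1, p1, -, s1, e1⟩ := hA V G n φ hL z a1 b1 ha1.1 ha1.2 hb1.1 hb1.2
  obtain ⟨w2, p2, -, s2, e2⟩ := hA V G n φ hL z a2 b2 ha2.1 ha2.2 hb2.1 hb2.2
  obtain ⟨w3, p3, -, s3, e3⟩ := hA V G n φ hL z a3 b3 ha3.1 ha3.2 hb3.1 hb3.2
  have hdis : ∀ a b c d : ℕ, (z ≤ a ∧ a < z + n) → (z ≤ b ∧ b < z + n) → (z ≤ c ∧ c < z + n) →
      (z ≤ d ∧ d < z + n) → Dj a b c d → ∀ v : V,
      (∃ i, ((a ≤ i ∧ i ≤ b) ∨ (b ≤ i ∧ i ≤ a)) ∧ v = φ i) →
      (∃ i, ((c ≤ i ∧ i ≤ d) ∨ (d ≤ i ∧ i ≤ c)) ∧ v = φ i) → False := by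
    rintro a b c d ha hb hc hd hdj v ⟨i, hi, rfl⟩ ⟨j, hj, hij⟩
    have h1 : i = j := CYC3_injw hL (z := z) (by omega) (by omega) (by omega) (by omega) hij
    unfold Dj at hdj
    omega
  have D12 : ∀ v, v ∈ w1.support → v ∈ w2.support → False := fun v h h' =>
    hdis a1 b1 a2 b2 ha1 hb1 ha2 hb2 d12 v (s1 v h) (s2 v h')
  have D13 : ∀ v, v ∈ w1.support → v ∈ w3.support → False := fun v h h' =>
    hdis a1 b1 a3 b3 ha1 hb1 ha3 hb3 d13 v (s1 v h) (s3 v h')
  have D23 : ∀ v, v ∈ w2.support → v ∈ w3.support → False := fun v h h' =>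
    hdis a2 b2 a3 b3 ha2 hb2 ha3 hb3 d23 v (s2 v h) (s3 v h')
  set q2 : G.Walk (φ a2) (φ b3) := w2.append (SimpleGraph.Walk.cons c23.1 w3) with hq2
  set q : G.Walk (φ a1) (φ b3) := w1.append (SimpleGraph.Walk.cons c12.1 q2) with hq
  have hs2 : q2.support = w2.support ++ w3.support := by
    rw [hq2, SimpleGraph.Walk.support_append, SimpleGraph.Walk.support_cons, List.tail_cons]
  have hs : q.support = w1.support ++ (w2.support ++ w3.support) := by
    rw [hq, SimpleGraph.Walk.support_append, SimpleGraph.Walk.support_cons, List.tail_cons, hs2]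
  have he : q.edges = w1.edges ++ (s(φ b1, φ a2) :: (w2.edges ++ (s(φ b2, φ a3) :: w3.edges))) := by
    rw [hq, SimpleGraph.Walk.edges_append, SimpleGraph.Walk.edges_cons, hq2,
      SimpleGraph.Walk.edges_append, SimpleGraph.Walk.edges_cons]
  have hqp : q.IsPath := by
    rw [SimpleGraph.Walk.isPath_def, hs, List.nodup_append', List.nodup_append']
    refine ⟨p1.support_nodup, ⟨p2.support_nodup, p3.support_nodup, ?_⟩, ?_⟩
    · intro v h h'
      exact D23 v h h'
    · intro v h h'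
      rcases List.mem_append.1 h' with h' | h'
      · exact D12 v h h'
      · exact D13 v h h'
  have hnot : s(φ b3, φ a1) ∉ q.edges := by
    rw [he]
    intro h
    rcases List.mem_append.1 h with h | h
    · exact c31.2 (e1 _ h)
    · rcases List.mem_cons.1 h with h | h
      · have h3 : φ b3 ∈ (s(φ b1, φ a2) : Sym2 V) := by
          rw [← h]
          exact Sym2.mem_mk_left _ _
        rcases Sym2.mem_iff.1 h3 with h4 | h4
        · exact D13 (φ b1) w1.end_mem_support (by rw [← h4]; exact w3.end_mem_support)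
        · exact D23 (φ a2) w2.start_mem_support (by rw [← h4]; exact w3.end_mem_support)
      · rcases List.mem_append.1 h with h | h
        · exact c31.2 (e2 _ h)
        · rcases List.mem_cons.1 h with h | h
          · have h3 : φ a1 ∈ (s(φ b2, φ a3) : Sym2 V) := by
              rw [← h]
              exact Sym2.mem_mk_right _ _
            rcases Sym2.mem_iff.1 h3 with h4 | h4
            · exact D12 (φ a1) w1.start_mem_support (by rw [h4]; exact w2.end_mem_support)
            · exact D13 (φ a1) w1.start_mem_support (by rw [h4]; exact w3.start_mem_support)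
          · exact c31.2 (e3 _ h)
  refine ⟨_, φ b3, SimpleGraph.Walk.cons c31.1 q,
    (SimpleGraph.Walk.cons_isCycle_iff q c31.1).2 ⟨hqp, hnot⟩, rfl, fun e => ?_⟩
  rw [SimpleGraph.Walk.edges_cons, he]
  simp only [List.mem_cons, List.mem_append, Set.mem_insert_iff, Set.mem_singleton_iff]
  constructor
  · rintro ⟨h, hc⟩
    rcases h with h | h | h | h | h | h
    · exact Or.inr (Or.inr h)
    · exact absurd (e1 _ h) hc
    · exact Or.inl h
    · exact absurd (e2 _ h) hc
    · exact Or.inr (Or.inl h)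
    · exact absurd (e3 _ h) hc
  · rintro (rfl | rfl | rfl)
    · exact ⟨Or.inr (Or.inr (Or.inl rfl)), c12.2⟩
    · exact ⟨Or.inr (Or.inr (Or.inr (Or.inr (Or.inl rfl)))), c23.2⟩
    · exact ⟨Or.inl rfl, c31.2⟩

end Pool.Agent.HDC
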