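import Pool.Agent.HDC.Stm

/-!
# PROJECT HDC: the cycles of the fan (helper6)
-/

set_option autoImplicit false

namespace Pool.Agent.HDC

open SimpleGraph

theorem fan_adj {n : ℕ} {A : Finset ℕ} {x y : Fin n} (h : (fan n A).Adj x y) :
    x ≠ y ∧ ((1 ≤ (x : ℕ) ∧ (y : ℕ) = x + 1) ∨ ((x : ℕ) = 0 ∧ (y : ℕ) ∈ A) ∨
      (1 ≤ (y : ℕ) ∧ (x : ℕ) = y + 1) ∨ ((y : ℕ) = 0 ∧ (x : ℕ) ∈ A)) := by
  have h1 := (SimpleGraph.fromRel_adj _ _ _).1 h
  refine ⟨h1.1, ?_⟩
  rcases h1.2 with (h2 | h2) | (h2 | h2)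
  · exact Or.inl h2
  · exact Or.inr (Or.inl h2)
  · exact Or.inr (Or.inr (Or.inl h2))
  · exact Or.inr (Or.inr (Or.inr h2))

/-- two neighbours on the cycle -/
theorem two_nb {V : Type} {G : SimpleGraph V} {u : V} {p : G.Walk u u} (hp : p.IsCycle) {v : V}
    (hv : v ∈ p.support) : ∃ x y : V, x ≠ y ∧ ∀ w, s(v, w) ∈ p.edges ↔ w = x ∨ w = y := by
  obtain ⟨x, y, hxy, h⟩ := Set.ncard_eq_two.1 (hp.ncard_neighborSet_toSubgraph_eq_two hv)
  refine ⟨x, y, hxy, fun w => ?_⟩
  rw [← Walk.adj_toSubgraph_iff_mem_edges, ← Subgraph.mem_neighborSet, h]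
  simp

theorem two_nb' {n : ℕ} {G : SimpleGraph (Fin n)} {u : Fin n} {p : G.Walk u u} (hp : p.IsCycle)
    {v : Fin n} (hv : v ∈ p.support) (c d : ℕ)
    (h : ∀ w, s(v, w) ∈ p.edges → (w : ℕ) = c ∨ (w : ℕ) = d) :
    c ≠ d ∧ ∃ x y : Fin n, (x : ℕ) = c ∧ (y : ℕ) = d ∧ s(v, x) ∈ p.edges ∧ s(v, y) ∈ p.edges := by
  obtain ⟨x, y, hxy, h1⟩ := two_nb hp hv
  have hx := h x ((h1 x).2 (Or.inl rfl))
  have hy := h y ((h1 y).2 (Or.inr rfl))
  have hne : (x : ℕ) ≠ y := fun h2 => hxy (Fin.ext h2)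
  have ex := (h1 x).2 (Or.inl rfl)
  have ey := (h1 y).2 (Or.inr rfl)
  rcases hx with hx | hx <;> rcases hy with hy | hy
  · omega
  · exact ⟨by omega, x, y, hx, hy, ex, ey⟩
  · exact ⟨by omega, y, x, hy, hx, ey, ex⟩
  · omega

/-- the edges of the cycle -/
def Ed {n : ℕ} (a b : ℕ) (e : Sym2 (Fin n)) : Prop :=
  ∃ x y : Fin n, e = s(x, y) ∧ (((x : ℕ) = 0 ∧ ((y : ℕ) = a ∨ (y : ℕ) = b)) ∨
    (a ≤ (x : ℕ) ∧ (y : ℕ) = x + 1 ∧ (y : ℕ) ≤ b))

theorem cyc {n : ℕ} {A : Finset ℕ} {u : Fin n}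
    {p : (fan n A).Walk u u} (hp : p.IsCycle) :
    ∃ a b : ℕ, a ∈ A ∧ b ∈ A ∧ a < b ∧ p.length = b - a + 2 ∧ ∀ e, e ∈ p.edges ↔ Ed a b e := by
  classical
  -- the largest vertex
  obtain ⟨b, hb, hbmax⟩ := Finset.exists_max_image p.support.toFinset (fun v : Fin n => (v : ℕ))
    ⟨u, List.mem_toFinset.2 p.start_mem_support⟩
  have hb' : b ∈ p.support := List.mem_toFinset.1 hb
  have hmax : ∀ v ∈ p.support, (v : ℕ) ≤ b := fun v hv => hbmax v (List.mem_toFinset.2 hv)
  have hs1 : ∀ {x y : Fin n}, s(x, y) ∈ p.edges → x ∈ p.support := fun h =>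
    p.fst_mem_support_of_mem_edges h
  have hs2 : ∀ {x y : Fin n}, s(x, y) ∈ p.edges → y ∈ p.support := fun h =>
    p.snd_mem_support_of_mem_edges h
  have hadj : ∀ {x y : Fin n}, s(x, y) ∈ p.edges → (fan n A).Adj x y := fun h =>
    p.adj_of_mem_edges h
  obtain ⟨hb2, z, b1, hz, hb1, ezb, eb1⟩ := two_nb' hp hb' 0 ((b : ℕ) - 1) (by
    intro w hw
    have h1 := fan_adj (hadj hw)
    have h2 := hmax w (hs2 hw)
    have h3 : (b : ℕ) ≠ w := fun h => h1.1 (Fin.ext h)
    rcases h1.2 with h4 | h4 | h4 | h4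
    · omega
    · omega
    · right; omega
    · left; exact h4.1)
  have hbA : (b : ℕ) ∈ A := by
    rcases (fan_adj (hadj ezb)).2 with h4 | h4 | h4 | h4
    · omega
    · omega
    · omega
    · exact h4.2
  have hzs : z ∈ p.support := hs2 ezb
  -- the least positive vertex
  obtain ⟨a, ha, hamin⟩ := Finset.exists_min_image
    (Finset.filter (fun v : Fin n => 0 < (v : ℕ)) p.support.toFinset) (fun v : Fin n => (v : ℕ))
    ⟨b, Finset.mem_filter.2 ⟨hb, by omega⟩⟩
  have ha' : a ∈ p.support := List.mem_toFinset.1 (Finset.mem_filter.1 ha).1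
  have ha0 : 0 < (a : ℕ) := (Finset.mem_filter.1 ha).2
  have hmin : ∀ v ∈ p.support, 0 < (v : ℕ) → (a : ℕ) ≤ v := fun v hv h0 =>
    hamin v (Finset.mem_filter.2 ⟨List.mem_toFinset.2 hv, h0⟩)
  obtain ⟨-, z', a1, hz', ha1, eza, ea1⟩ := two_nb' hp ha' 0 ((a : ℕ) + 1) (by
    intro w hw
    have h1 := fan_adj (hadj hw)
    have h3 : (a : ℕ) ≠ w := fun h => h1.1 (Fin.ext h)
    rcases h1.2 with h4 | h4 | h4 | h4
    · right; exact h4.2
    · omega
    · have h2 := hmin w (hs2 hw) (by omega)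
      omega
    · left; exact h4.1)
  have hzz : z' = z := Fin.ext (by omega)
  rw [hzz] at eza
  have haA : (a : ℕ) ∈ A := by
    rcases (fan_adj (hadj eza)).2 with h4 | h4 | h4 | h4
    · omega
    · omega
    · omega
    · exact h4.2
  have hab : (a : ℕ) < b := by
    have := hmax a1 (hs2 ea1)
    omega
  -- the neighbours of `0`
  have hnz : ∀ w, s(z, w) ∈ p.edges → w = a ∨ w = b := by
    intro w hw
    obtain ⟨x, y, hxy, h1⟩ := two_nb hp hzs
    have h2 := (h1 a).1 (by rw [Sym2.eq_swap]; exact eza)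
    have h3 := (h1 b).1 (by rw [Sym2.eq_swap]; exact ezb)
    have h4 := (h1 w).1 hw
    have h5 : a ≠ b := fun h => by rw [h] at hab; omega
    rcases h2 with h2 | h2 <;> rcases h3 with h3 | h3 <;> rcases h4 with h4 | h4 <;> subst h2 <;>
      subst h4 <;> simp_all
  -- the path
  have hpath : ∀ k : ℕ, (a : ℕ) + k < b → ∀ x y : Fin n, (x : ℕ) = a + k → (y : ℕ) = a + k + 1 →
      s(x, y) ∈ p.edges := by
    intro k
    induction k with
    | zero =>
      intro _ x y hx hy
      have h1 : x = a := Fin.ext (by omega)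
      have h2 : y = a1 := Fin.ext (by omega)
      rw [h1, h2]
      exact ea1
    | succ k ih =>
      intro hk x y hx hy
      have h1 := ih (by omega) ⟨(a : ℕ) + k, by have := x.2; omega⟩ x rfl (by omega)
      have hxs : x ∈ p.support := hs2 h1
      obtain ⟨-, x', y', -, hy', -, e⟩ := two_nb' hp hxs ((x : ℕ) - 1) ((x : ℕ) + 1) (by
        intro w hw
        have h2 := fan_adj (hadj hw)
        rcases h2.2 with h4 | h4 | h4 | h4
        · right; exact h4.2
        · omega
        · left; omega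
        · exfalso
          have h5 : w = z := Fin.ext (by omega)
          rw [h5, Sym2.eq_swap] at hw
          rcases hnz x hw with h6 | h6
          · rw [h6] at hx; omega
          · rw [h6] at hx; omega)
      have h3 : y = y' := Fin.ext (by omega)
      rw [h3]
      exact e
  have hsup : ∀ v : Fin n, v ∈ p.support ↔ (v : ℕ) = 0 ∨ ((a : ℕ) ≤ v ∧ (v : ℕ) ≤ b) := by
    intro v
    constructor
    · intro hv
      rcases Nat.eq_zero_or_pos (v : ℕ) with h | h
      · exact Or.inl h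
      · exact Or.inr ⟨hmin v hv h, hmax v hv⟩
    · rintro (h | ⟨h1, h2⟩)
      · have : v = z := Fin.ext (by omega)
        rw [this]; exact hzs
      · rcases Nat.lt_or_ge (v : ℕ) b with h3 | h3
        · exact hs1 (hpath ((v : ℕ) - a) (by omega) v ⟨(v : ℕ) + 1, by have := b.2; omega⟩
            (by omega) (by show (v : ℕ) + 1 = _; omega))
        · have : v = b := Fin.ext (by omega)
          rw [this]; exact hb'
  refine ⟨a, b, haA, hbA, hab, ?_, ?_⟩
  · -- the length
    have h1 : p.support.tail.length = p.length := by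
      rw [List.length_tail, p.length_support, Nat.add_sub_cancel]
    have h2 : p.support.tail.toFinset.map Fin.valEmbedding = insert 0 (Finset.Icc (a : ℕ) b) := by
      ext i
      rw [Finset.mem_map, Finset.mem_insert, Finset.mem_Icc]
      have hmem : ∀ v : Fin n, v ∈ p.support.tail ↔ v ∈ p.support := by
        intro v
        constructor
        · exact List.mem_of_mem_tail
        · intro hv
          rw [Walk.mem_support_iff] at hv
          rcases hv with rfl | hv
          · exact p.end_mem_tail_support hp.not_nil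
          · exact hv
      constructor
      · rintro ⟨v, hv, rfl⟩
        exact (hsup v).1 ((hmem v).1 (List.mem_toFinset.1 hv))
      · intro hi
        have hin : i < n := by
          have := b.2
          omega
        exact ⟨⟨i, hin⟩, List.mem_toFinset.2 ((hmem _).2 ((hsup _).2 hi)), rfl⟩
    have h3 := congrArg Finset.card h2
    rw [Finset.card_map, List.toFinset_card_of_nodup hp.support_nodup, h1,
      Finset.card_insert_of_notMem (by rw [Finset.mem_Icc]; omega), Nat.card_Icc] at h3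
    omega
  · -- the edges
    intro e
    constructor
    · induction e using Sym2.ind with
      | _ x y =>
        intro he
        have hx := hs1 he
        have hy := hs2 he
        rcases (fan_adj (hadj he)).2 with h4 | h4 | h4 | h4
        · exact ⟨x, y, rfl, Or.inr ⟨hmin x hx (by omega), h4.2, hmax y hy⟩⟩
        · have h5 : x = z := Fin.ext (by omega)
          refine ⟨x, y, rfl, Or.inl ⟨h4.1, ?_⟩⟩
          rw [h5] at he
          rcases hnz y he with h | h
          · left; rw [h]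
          · right; rw [h]
        · exact ⟨y, x, Sym2.eq_swap, Or.inr ⟨hmin y hy (by omega), h4.2, hmax x hx⟩⟩
        · have h5 : y = z := Fin.ext (by omega)
          refine ⟨y, x, Sym2.eq_swap, Or.inl ⟨h4.1, ?_⟩⟩
          rw [h5, Sym2.eq_swap] at he
          rcases hnz x he with h | h
          · left; rw [h]
          · right; rw [h]
    · rintro ⟨x, y, rfl, (⟨hx, hy | hy⟩ | ⟨h1, h2, h3⟩)⟩
      · have h1 : x = z := Fin.ext (by omega)
        have h2 : y = a := Fin.ext hy
        rw [h1, h2, Sym2.eq_swap]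
        exact eza
      · have h1 : x = z := Fin.ext (by omega)
        have h2 : y = b := Fin.ext hy
        rw [h1, h2, Sym2.eq_swap]
        exact ezb
      · exact hpath ((x : ℕ) - a) (by omega) x y (by omega) (by omega)

theorem t_FAND : S_FAND := by
  intro n A _ _ hSid u v p q hp hq hlen
  obtain ⟨a, b, ha, hb, hab, hl, he⟩ := cyc hp
  obtain ⟨a', b', ha', hb', hab', hl', he'⟩ := cyc hq
  obtain ⟨h1, h2⟩ := hSid a ha b hb a' ha' b' hb' hab hab' (by omega)
  intro e
  rw [he, he', h1, h2]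

end Pool.Agent.HDC
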