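import Pool.Agent.HDC.Stm

/-!
Piece FANE of project HDC (helper45).
-/

set_option autoImplicit false

namespace Pool.Agent.HDC

theorem t_FANE : S_FANE := by
  intro n A hn hA
  classical
  let g : ℕ → Fin n := fun i => ⟨i % n, Nat.mod_lt _ (by omega)⟩
  have hg : ∀ i, i < n → ((g i : Fin n) : ℕ) = i := fun i hi => Nat.mod_eq_of_lt hi
  have hgi : ∀ i j, i < n → j < n → g i = g j → i = j := by
    intro i j hi hj h
    have := congrArg Fin.val h
    rw [hg i hi, hg j hj] at this
    exact this
  let F1 : Finset (Sym2 (Fin n)) := (Finset.Ico 1 (n - 1)).image (fun i => s(g i, g (i + 1)))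
  let F2 : Finset (Sym2 (Fin n)) := A.image (fun a => s(g 0, g a))
  have h1 : F1.card = n - 2 := by
    rw [Finset.card_image_of_injOn, Nat.card_Ico]
    · omega
    · intro i hi j hj hij
      have hi' := Finset.mem_Ico.1 (Finset.mem_coe.1 hi)
      have hj' := Finset.mem_Ico.1 (Finset.mem_coe.1 hj)
      have hij' : s(g i, g (i + 1)) = s(g j, g (j + 1)) := hij
      rw [Sym2.eq_iff] at hij'
      rcases hij' with ⟨h, _⟩ | ⟨h, h'⟩
      · exact hgi i j (by omega) (by omega) h
      · have := hgi i (j + 1) (by omega) (by omega) h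
        have := hgi (i + 1) j (by omega) (by omega) h'
        omega
  have h2 : F2.card = A.card := by
    apply Finset.card_image_of_injOn
    intro i hi j hj hij
    have hi' := hA i (Finset.mem_coe.1 hi)
    have hj' := hA j (Finset.mem_coe.1 hj)
    have hij' : s(g 0, g i) = s(g 0, g j) := hij
    rw [Sym2.eq_iff] at hij'
    rcases hij' with ⟨_, h⟩ | ⟨h, h'⟩
    · exact hgi i j (by omega) (by omega) h
    · have := hgi 0 j (by omega) (by omega) h
      omega
  have hd : Disjoint F1 F2 := by
    rw [Finset.disjoint_left]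
    intro e he1 he2
    obtain ⟨i, hi, rfl⟩ := Finset.mem_image.1 he1
    obtain ⟨a, ha, he⟩ := Finset.mem_image.1 he2
    have hi' := Finset.mem_Ico.1 hi
    have ha' := hA a ha
    rw [Sym2.eq_iff] at he
    rcases he with ⟨h, _⟩ | ⟨h, _⟩
    · have := hgi 0 i (by omega) (by omega) h
      omega
    · have := hgi 0 (i + 1) (by omega) (by omega) h
      omega
  have hsub : ((F1 ∪ F2 : Finset (Sym2 (Fin n))) : Set (Sym2 (Fin n))) ⊆ (fan n A).edgeSet := by
    intro e he
    rw [Finset.mem_coe, Finset.mem_union] at he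
    rcases he with he | he
    · obtain ⟨i, hi, rfl⟩ := Finset.mem_image.1 he
      have hi' := Finset.mem_Ico.1 hi
      rw [SimpleGraph.mem_edgeSet, fan, SimpleGraph.fromRel_adj]
      refine ⟨fun h => ?_, Or.inl (Or.inl ⟨?_, ?_⟩)⟩
      · have := hgi i (i + 1) (by omega) (by omega) h
        omega
      · rw [hg i (by omega)]
        exact hi'.1
      · rw [hg i (by omega), hg (i + 1) (by omega)]
    · obtain ⟨a, ha, rfl⟩ := Finset.mem_image.1 he
      have ha' := hA a ha
      rw [SimpleGraph.mem_edgeSet, fan, SimpleGraph.fromRel_adj]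
      refine ⟨fun h => ?_, Or.inl (Or.inr ⟨?_, ?_⟩)⟩
      · have := hgi 0 a (by omega) (by omega) h
        omega
      · exact hg 0 (by omega)
      · rw [hg a (by omega)]
        exact ha
  have h3 := Set.ncard_le_ncard hsub (Set.toFinite _)
  rw [Set.ncard_coe_finset, Finset.card_union_of_disjoint hd, h1, h2] at h3
  exact h3

end Pool.Agent.HDC
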