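import Pool.Agent.HDC.Stm

/-! # Project HDC, piece FANH: the fan is Hamiltonian (helper86) -/

set_option autoImplicit false

namespace Pool.Agent.HDC

open SimpleGraph

namespace FANHP

theorem cyc_le {m : ℕ} {A : Finset ℕ} (h1 : 1 ∈ A) (h2 : m + 3 - 1 ∈ A) :
    cycleGraph (m + 3) ≤ fan (m + 3) A := by
  have key : ∀ u v : Fin (m + 3), (u - v).val = 1 → (fan (m + 3) A).Adj u v := by
    intro u v h
    have hu := u.isLt
    have hv := v.isLt
    rw [Fin.val_sub] at h
    have hcases : u.val = v.val + 1 ∨ (u.val = 0 ∧ v.val = m + 3 - 1) := by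
      by_cases hc : m + 3 - v.val + u.val < m + 3
      · rw [Nat.mod_eq_of_lt hc] at h
        omega
      · rw [Nat.mod_eq_sub_mod (by omega), Nat.mod_eq_of_lt (by omega)] at h
        omega
    unfold fan
    rw [SimpleGraph.fromRel_adj]
    refine ⟨?_, ?_⟩
    · intro huv
      rw [huv] at hcases
      omega
    · rcases hcases with h3 | ⟨h3, h4⟩
      · right
        by_cases h5 : v.val = 0
        · right
          refine ⟨h5, ?_⟩
          rw [h3, h5]
          exact h1
        · left
          exact ⟨by omega, h3⟩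
      · left
        right
        refine ⟨h3, ?_⟩
        rw [h4]
        exact h2
  intro u v h
  rw [cycleGraph_adj'] at h
  rcases h with h | h
  · exact key u v h
  · exact (key v u h).symm

end FANHP

/-- FANH -/
theorem t_FANH : S_FANH := by
  intro n A hn h1 h2
  obtain ⟨m, rfl⟩ : ∃ m, n = m + 3 := ⟨n - 3, by omega⟩
  apply IsHamiltonian.mono (FANHP.cyc_le h1 h2)
  intro _
  refine ⟨0, cycleGraph.cycle m, ?_⟩
  rw [Walk.isHamiltonianCycle_iff_isCycle_and_length_eq]
  refine ⟨cycleGraph.isCycle_cycle, ?_⟩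
  rw [cycleGraph.length_cycle]
  simp

end Pool.Agent.HDC
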