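import Pool.Agent.HDC.Stm

/-!
# PROJECT HDC (helper33), piece FIN (helper23)
-/

set_option autoImplicit false

namespace Pool.Agent.HDC

/-- **FIN** -/
theorem t_FIN : S_FIN := by
  intro n k b hn hkb h
  by_contra hcon
  push Not at hcon
  obtain ⟨s, hs⟩ : ∃ s : ℝ, s = (n : ℝ) ^ (1 / 4 : ℝ) := ⟨_, rfl⟩
  have hn0 : (0 : ℝ) ≤ n := Nat.cast_nonneg n
  have hn3 : (3 : ℝ) ≤ n := by exact_mod_cast hn
  have hs4 : s ^ 4 = n := by
    rw [hs, ← Real.rpow_natCast, ← Real.rpow_mul hn0]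
    norm_num
  have hs2 : s ^ 2 = (n : ℝ) ^ (1 / 2 : ℝ) := by
    rw [hs, ← Real.rpow_natCast, ← Real.rpow_mul hn0]
    norm_num
  have hs1 : 1 ≤ s := by
    rw [hs]
    exact Real.one_le_rpow (by linarith) (by norm_num)
  rw [← hs, ← hs2] at hcon
  have hs0 : 0 < s := by linarith
  have hss : 1 ≤ s ^ 2 := one_le_pow₀ hs1
  have hk1 : 1 ≤ k := by
    by_contra h0
    have h1 : k = 0 := by omega
    rw [h1, Nat.cast_zero] at hcon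
    nlinarith
  obtain ⟨K, rfl⟩ : ∃ K, k = K + 1 := ⟨k - 1, by omega⟩
  simp only [Nat.add_sub_cancel] at h
  push_cast at hcon
  have hb : (b : ℝ) ≤ 36 * s ^ 2 := by
    have h1 : ((K : ℝ) + 1) * b ≤ 27 * (n + 1) := by exact_mod_cast hkb
    have h2 : 27 * ((n : ℝ) + 1) ≤ 36 * s ^ 4 := by
      rw [hs4]
      linarith
    have h3 : s ^ 2 * (b : ℝ) ≤ ((K : ℝ) + 1) * b :=
      mul_le_mul_of_nonneg_right (by linarith) (Nat.cast_nonneg b)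
    have h4 : s ^ 2 * (b : ℝ) ≤ s ^ 2 * (36 * s ^ 2) := by
      calc s ^ 2 * (b : ℝ) ≤ 36 * s ^ 4 := h3.trans (h1.trans h2)
        _ = s ^ 2 * (36 * s ^ 2) := by ring
    exact le_of_mul_le_mul_left h4 (by positivity)
  have hK0 : (0 : ℝ) ≤ K := Nat.cast_nonneg K
  have hb0 : (0 : ℝ) ≤ b := Nat.cast_nonneg b
  have hK1 : (K : ℝ) ^ 2 ≤ 2 * (K + s ^ 4 + b) := by
    have h1 : (K : ℝ) ^ 2 * n ≤ (n + n) * (K + n + b) := by exact_mod_cast h n (by omega)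
    rw [hs4]
    have h2 : (K : ℝ) ^ 2 * n ≤ (2 * (K + n + b)) * n := by linarith
    exact le_of_mul_le_mul_right h2 (by linarith)
  have hss4 : s ^ 2 ≤ s ^ 4 := pow_le_pow_right₀ hs1 (by norm_num)
  have hK10 : (K : ℝ) ≤ 10 * s ^ 2 := by
    by_contra hc
    push Not at hc
    have h1 : 9 * s ^ 2 < (K : ℝ) - 1 := by linarith
    have h2 : (9 * s ^ 2) ^ 2 < ((K : ℝ) - 1) ^ 2 := pow_lt_pow_left₀ h1 (by positivity) (by norm_num)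
    have h3 : (9 * s ^ 2) ^ 2 = 81 * s ^ 4 := by ring
    rw [h3] at h2
    nlinarith
  obtain ⟨l, hl1, hl2⟩ : ∃ l : ℕ, s ^ 3 ≤ (l : ℝ) ∧ (l : ℝ) < s ^ 3 + 1 :=
    ⟨⌈s ^ 3⌉₊, Nat.le_ceil _, Nat.ceil_lt_add_one (by positivity)⟩
  have hs3 : 1 ≤ s ^ 3 := one_le_pow₀ hs1
  have hl0 : 0 < (l : ℝ) := by linarith
  have hK2 : (K : ℝ) ^ 2 ≤ s ^ 4 + 48 * s ^ 3 + 46 * s ^ 2 := by
    have h1 : (K : ℝ) ^ 2 * l ≤ (n + l) * (K + l + b) := by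
      exact_mod_cast h l (by exact_mod_cast hl0)
    rw [← hs4] at h1
    have h2 : (s ^ 4 + (l : ℝ)) * (K + l + b) ≤ (s ^ 4 + l) * (46 * s ^ 2 + l) :=
      mul_le_mul_of_nonneg_left (by linarith) (by positivity)
    have h3 : s ^ 6 ≤ s ^ 3 * l := by
      calc s ^ 6 = s ^ 3 * s ^ 3 := by ring
        _ ≤ s ^ 3 * l := mul_le_mul_of_nonneg_left hl1 (by positivity)
    have h4 : (l : ℝ) * l ≤ (2 * s ^ 3) * l := mul_le_mul_of_nonneg_right (by linarith) hl0.le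
    have h5 : (K : ℝ) ^ 2 * l ≤ (s ^ 4 + 48 * s ^ 3 + 46 * s ^ 2) * l := by
      calc (K : ℝ) ^ 2 * l ≤ (s ^ 4 + l) * (46 * s ^ 2 + l) := h1.trans h2
        _ = 46 * s ^ 6 + s ^ 4 * l + 46 * s ^ 2 * l + l * l := by ring
        _ ≤ 46 * (s ^ 3 * l) + s ^ 4 * l + 46 * s ^ 2 * l + (2 * s ^ 3) * l := by linarith
        _ = (s ^ 4 + 48 * s ^ 3 + 46 * s ^ 2) * l := by ring
    exact le_of_mul_le_mul_right h5 hl0
  have h6 : s ^ 2 + 99 * s < (K : ℝ) := by linarith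
  have h7 : (s ^ 2 + 99 * s) ^ 2 < (K : ℝ) ^ 2 := pow_lt_pow_left₀ h6 (by positivity) (by norm_num)
  have h8 : (s ^ 2 + 99 * s) ^ 2 = s ^ 4 + 198 * s ^ 3 + 9801 * s ^ 2 := by ring
  rw [h8] at h7
  have h9 : 0 < s ^ 3 := by positivity
  have h10 : 0 < s ^ 2 := by positivity
  linarith

end Pool.Agent.HDC
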