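import Pool.Agent.HDC.Stm

set_option autoImplicit false

namespace Pool.Agent.HDC

theorem t_HAM : S_HAM := by
  intro n hn G hG
  obtain ⟨a, p, hp⟩ := hG (by rw [Fintype.card_fin]; omega)
  have hlen : p.length = n := by
    rw [hp.length_eq, Fintype.card_fin]
  have hinj : ∀ i j, i < n → j < n → p.getVert i = p.getVert j → i = j := by
    intro i j hi hj h
    have hi' : i ≤ p.length - 1 := by omega
    have hj' : j ≤ p.length - 1 := by omega
    exact hp.isCycle.getVert_injOn' hi' hj' h
  have hmod : ∀ i, i % n < n := fun i => Nat.mod_lt _ (by omega)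
  refine ⟨fun i => p.getVert (i % n), ⟨hn, ?_, ?_, ?_, ?_⟩⟩
  · intro i
    show p.getVert ((i + n) % n) = p.getVert (i % n)
    rw [Nat.add_mod_right]
  · intro i
    show G.Adj (p.getVert (i % n)) (p.getVert ((i + 1) % n))
    have h1 : G.Adj (p.getVert (i % n)) (p.getVert (i % n + 1)) :=
      p.adj_getVert_succ (by rw [hlen]; exact hmod i)
    by_cases h : i % n + 1 = n
    · have h2 : (i + 1) % n = 0 := by
        rw [Nat.add_mod, Nat.mod_eq_of_lt (show 1 < n by omega), h, Nat.mod_self]
      have h3 : p.getVert (i % n + 1) = p.getVert ((i + 1) % n) := by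
        rw [h2, SimpleGraph.Walk.getVert_zero, show i % n + 1 = p.length by rw [hlen, h],
          SimpleGraph.Walk.getVert_length]
      rw [← h3]
      exact h1
    · have h2 : (i + 1) % n = i % n + 1 := by
        rw [Nat.add_mod, Nat.mod_eq_of_lt (show 1 < n by omega),
          Nat.mod_eq_of_lt (by have := hmod i; omega)]
      rw [h2]
      exact h1
  · intro i j hi hj h
    have h' : p.getVert (i % n) = p.getVert (j % n) := h
    rw [Nat.mod_eq_of_lt hi, Nat.mod_eq_of_lt hj] at h'
    exact hinj i j hi hj h'
  · have hI : Function.Injective (fun i : Fin n => p.getVert (i : ℕ)) := by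
      intro i j h
      exact Fin.ext (hinj i j i.2 j.2 h)
    have hS := Finite.surjective_of_injective hI
    intro v
    obtain ⟨i, hi⟩ := hS v
    refine ⟨i, i.2, ?_⟩
    show p.getVert ((i : ℕ) % n) = v
    rw [Nat.mod_eq_of_lt i.2]
    exact hi

end Pool.Agent.HDC
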