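import Pool.Agent.HDC.Stm

/-!
# Piece KEY (helper14): the cycles through a fixed chord
-/

set_option autoImplicit false

namespace Pool.Agent.HDC

theorem key_mul {V : Type} {G : SimpleGraph V} {n : ℕ} {φ : ℕ → V} (h : Lab G n φ) (k t : ℕ) :
    φ (k + t * n) = φ k := by
  induction t with
  | zero => simp
  | succ t ih =>
    have e : k + (t + 1) * n = (k + t * n) + n := by ring
    rw [e, h.per, ih]

theorem key_mod {V : Type} {G : SimpleGraph V} {n : ℕ} {φ : ℕ → V} (h : Lab G n φ) (k : ℕ) :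
    φ (k % n) = φ k := by
  have h1 := key_mul h (k % n) (k / n)
  rw [Nat.mod_add_div'] at h1
  exact h1.symm

theorem key_arith (k t n : ℕ) (hn : 1 ≤ n) : k + t * (n - 1) + t = k + t * n := by
  obtain ⟨m, rfl⟩ : ∃ m, n = m + 1 := ⟨n - 1, by omega⟩
  rw [Nat.add_sub_cancel]
  ring

theorem key_cy {V : Type} {G : SimpleGraph V} {n : ℕ} {φ : ℕ → V} (h : Lab G n φ) (t : ℕ) :
    Cy (fun k => φ (k + t)) = Cy φ := by
  have hn : 1 ≤ n := by
    have := h.three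
    omega
  ext e
  constructor
  · rintro ⟨i, rfl⟩
    refine ⟨i + t, ?_⟩
    show s(φ (i + t), φ (i + 1 + t)) = s(φ (i + t), φ (i + t + 1))
    rw [show i + 1 + t = i + t + 1 by ring]
  · rintro ⟨i, rfl⟩
    refine ⟨i + t * (n - 1), ?_⟩
    show s(φ i, φ (i + 1)) = s(φ (i + t * (n - 1) + t), φ (i + t * (n - 1) + 1 + t))
    have e1 : i + t * (n - 1) + 1 + t = (i + 1) + t * (n - 1) + t := by ring
    rw [e1, key_arith i t n hn, key_arith (i + 1) t n hn, key_mul h, key_mul h]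

theorem key_shift {V : Type} {G : SimpleGraph V} {n : ℕ} {φ : ℕ → V} (h : Lab G n φ) (t : ℕ) :
    Lab G n (fun k => φ (k + t)) where
  three := h.three
  per i := by
    show φ (i + n + t) = φ (i + t)
    rw [show i + n + t = i + t + n by ring, h.per]
  adj i := by
    show G.Adj (φ (i + t)) (φ (i + 1 + t))
    rw [show i + 1 + t = i + t + 1 by ring]
    exact h.adj _
  inj i j hi hj e := by
    have hn : 0 < n := by omega
    have e' : φ (i + t) = φ (j + t) := e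
    have h1 := h.inj ((i + t) % n) ((j + t) % n) (Nat.mod_lt _ hn) (Nat.mod_lt _ hn) (by
      rw [key_mod h, key_mod h]
      exact e')
    have h2 : i + t ≡ j + t [MOD n] := h1
    have h3 : i ≡ j [MOD n] := Nat.ModEq.add_right_cancel' t h2
    exact Nat.ModEq.eq_of_lt_of_lt h3 hi hj
  surj v := by
    obtain ⟨k, hk, rfl⟩ := h.surj v
    have hn : 0 < n := by omega
    refine ⟨(k + t * (n - 1)) % n, Nat.mod_lt _ hn, ?_⟩
    show φ ((k + t * (n - 1)) % n + t) = φ k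
    rw [← key_mod h ((k + t * (n - 1)) % n + t), Nat.mod_add_mod, key_arith k t n hn,
      Nat.add_mul_mod_self_right, key_mod h]

/-- the type of a chord with respect to the root chord: `0` left, `1` right, `2` crossing -/
def Rp (n m τ x y : ℕ) : Prop :=
  (τ = 0 ∧ x < y ∧ y ≤ m) ∨ (τ = 1 ∧ m ≤ x ∧ x < y ∧ y ≤ n) ∨
    (τ = 2 ∧ 0 < x ∧ x < m ∧ m < y ∧ y < n)

/-- the value of a chord -/
def vl (n τ x y : ℕ) : ℕ := if τ = 0 then y - x else if τ = 1 then n - (y - x) else 0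

theorem vl_zero (n x y : ℕ) : vl n 0 x y = y - x := by simp [vl]

theorem vl_one (n x y : ℕ) : vl n 1 x y = n - (y - x) := by simp [vl]

theorem vl_le {n m τ x y : ℕ} (hmn : m < n) (h : Rp n m τ x y) : vl n τ x y ≤ n := by
  unfold vl
  rcases h with h | h | h
  · rw [if_pos h.1]
    omega
  · rw [if_neg (by omega), if_pos h.1]
    omega
  · rw [if_neg (by omega), if_neg (by omega)]
    omega

theorem ch_symm {V : Type} {G : SimpleGraph V} {φ : ℕ → V} {a b : ℕ} (h : Ch G φ a b) :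
    Ch G φ b a := ⟨h.1.symm, by
      rw [Sym2.eq_swap]
      exact h.2⟩

theorem rp_exists {V : Type} {G : SimpleGraph V} {n : ℕ} {ψ : ℕ → V} (h : Lab G n ψ) {m : ℕ}
    (c : Sym2 V) (hc : c ∈ G.edgeSet) :
    ∃ τ x y, Rp n m τ x y ∧ c = s(ψ x, ψ y) := by
  induction c using Sym2.ind with
  | _ a b =>
    obtain ⟨i, hi, rfl⟩ := h.surj a
    obtain ⟨j, hj, rfl⟩ := h.surj b
    have hadj : G.Adj (ψ i) (ψ j) := hc
    have hij : i ≠ j := by
      rintro rfl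
      exact G.loopless.irrefl _ hadj
    have key : ∀ i j : ℕ, i < j → j < n → ∃ τ x y, Rp n m τ x y ∧ s(ψ i, ψ j) = s(ψ x, ψ y) := by
      intro i j hij hj
      by_cases h1 : j ≤ m
      · exact ⟨0, i, j, Or.inl ⟨rfl, hij, h1⟩, rfl⟩
      · by_cases h2 : i = 0
        · refine ⟨1, j, n, Or.inr (Or.inl ⟨rfl, by omega, hj, le_refl _⟩), ?_⟩
          have h0 : ψ n = ψ 0 := by
            have := h.per 0
            rwa [zero_add] at this
          rw [h0, h2]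
          exact Sym2.eq_swap
        · by_cases h3 : m ≤ i
          · exact ⟨1, i, j, Or.inr (Or.inl ⟨rfl, h3, hij, hj.le⟩), rfl⟩
          · exact ⟨2, i, j, Or.inr (Or.inr ⟨rfl, by omega, by omega, by omega, hj⟩), rfl⟩
    rcases lt_or_gt_of_ne hij with h1 | h1
    · exact key i j h1 hj
    · obtain ⟨τ, x, y, h2, h3⟩ := key j i h1 hi
      exact ⟨τ, x, y, h2, by rw [← h3]; exact Sym2.eq_swap⟩

theorem key_le (h1 : S_KLL) (h2 : S_KLR) (h3 : S_KLX) (h4 : S_KXX) {V : Type}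
    {G : SimpleGraph V} {n : ℕ} {ψ : ℕ → V} (h : Lab G n ψ) {m : ℕ} (hm : 0 < m) (hmn : m < n)
    (hr : Ch G ψ 0 m) {τ x y τ' x' y' : ℕ} (hx : Rp n m τ x y) (hx' : Rp n m τ' x' y')
    (hc : Ch G ψ x y) (hc' : Ch G ψ x' y') (hne : s(ψ x, ψ y) ≠ s(ψ x', ψ y'))
    (hne1 : s(ψ x, ψ y) ≠ s(ψ 0, ψ m)) (hne2 : s(ψ x', ψ y') ≠ s(ψ 0, ψ m)) (hle : τ ≤ τ') :
    (∃ l, HasCyc G ψ {s(ψ 0, ψ m), s(ψ x, ψ y), s(ψ x', ψ y')} l) ∨
      HasCyc G ψ {s(ψ x, ψ y), s(ψ x', ψ y')}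
        ((vl n τ x y - vl n τ' x' y') + (vl n τ' x' y' - vl n τ x y) + 2) := by
  obtain ⟨χ, hχ⟩ : ∃ χ : ℕ → V, χ = fun k => ψ (k + m) := ⟨_, rfl⟩
  have e : ∀ k, χ k = ψ (k + m) := by
    intro k
    rw [hχ]
  have hL : Lab G n χ := by
    rw [hχ]
    exact key_shift h m
  have hC : Cy χ = Cy ψ := by
    rw [hχ]
    exact key_cy h m
  have hH : ∀ T l, HasCyc G χ T l ↔ HasCyc G ψ T l := by
    intro T l
    unfold HasCyc
    rw [hC]
  have e0 : χ 0 = ψ m := by rw [e, zero_add]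
  have en : ψ n = ψ 0 := by
    have := h.per 0
    rwa [zero_add] at this
  have em : χ (n - m) = ψ 0 := by rw [e, Nat.sub_add_cancel hmn.le, en]
  have ex : ∀ k, m ≤ k → χ (k - m) = ψ k := by
    intro k hk
    rw [e, Nat.sub_add_cancel hk]
  have exn : ∀ k, χ (k + n - m) = ψ k := by
    intro k
    rw [e, Nat.sub_add_cancel (by omega), h.per]
  have hCh : ∀ a b a' b', χ a = ψ a' → χ b = ψ b' → Ch G ψ a' b' → Ch G χ a b := by
    intro a b a' b' ha hb hab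
    unfold Ch at hab ⊢
    rw [ha, hb, hC]
    exact hab
  have hroot : Ch G χ 0 (n - m) := hCh _ _ m 0 e0 em (ch_symm hr)
  rcases hx with ⟨rfl, a1, a2⟩ | ⟨rfl, a0, a1, a2⟩ | ⟨rfl, a0, a1, a2, a3⟩
  · rcases hx' with ⟨rfl, b1, b2⟩ | ⟨rfl, b0, b1, b2⟩ | ⟨rfl, b0, b1, b2, b3⟩
    · rw [vl_zero, vl_zero]
      exact h1 V G n ψ h m x y x' y' hm hmn hr a1 a2 b1 b2 hc hc' hne hne1 hne2
    · right
      have h5 := h2 V G n ψ h m x y x' y' hm hmn a1 a2 b0 b1 b2 hc hc' hne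
      rw [vl_zero, vl_one]
      have e1 : y - x - (n - (y' - x')) + (n - (y' - x') - (y - x)) + 2 =
          n - (y' - x') - (y - x) + 2 := by omega
      rw [e1]
      exact h5
    · left
      obtain ⟨l, hl⟩ := h3 V G n ψ h m x' y' x y hr b0 b1 b2 b3 a1 a2 hc' hc hne1
      refine ⟨l, ?_⟩
      rw [Set.pair_comm]
      exact hl
  · rcases hx' with ⟨rfl, b1, b2⟩ | ⟨rfl, b0, b1, b2⟩ | ⟨rfl, b0, b1, b2, b3⟩
    · omega
    · have h5 := h1 V G n χ hL (n - m) (x - m) (y - m) (x' - m) (y' - m) (by omega) (by omega)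
        hroot (by omega) (by omega) (by omega) (by omega)
        (hCh _ _ x y (ex x a0) (ex y (by omega)) hc)
        (hCh _ _ x' y' (ex x' b0) (ex y' (by omega)) hc')
      rw [ex x a0, ex y (by omega), ex x' b0, ex y' (by omega), e0, em,
        show s(ψ m, ψ 0) = s(ψ 0, ψ m) from Sym2.eq_swap] at h5
      have h6 := h5 hne hne1 hne2
      rw [vl_one, vl_one]
      rcases h6 with ⟨l, hl⟩ | h6
      · left
        exact ⟨l, (hH _ _).1 hl⟩
      · right
        have e1 : n - (y - x) - (n - (y' - x')) + (n - (y' - x') - (n - (y - x))) + 2 =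
            y - m - (x - m) - (y' - m - (x' - m)) + (y' - m - (x' - m) - (y - m - (x - m))) + 2 := by
          omega
        rw [e1]
        exact (hH _ _).1 h6
    · left
      have h5 := h3 V G n χ hL (n - m) (y' - m) (x' + n - m) (x - m) (y - m) hroot (by omega)
        (by omega) (by omega) (by omega) (by omega) (by omega)
        (hCh _ _ y' x' (ex y' (by omega)) (exn x') (ch_symm hc'))
        (hCh _ _ x y (ex x a0) (ex y (by omega)) hc)
      rw [ex x a0, ex y (by omega), ex y' (by omega), exn x', e0, em,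
        show s(ψ m, ψ 0) = s(ψ 0, ψ m) from Sym2.eq_swap,
        show s(ψ y', ψ x') = s(ψ x', ψ y') from Sym2.eq_swap] at h5
      obtain ⟨l, hl⟩ := h5 hne1
      refine ⟨l, ?_⟩
      rw [Set.pair_comm]
      exact (hH _ _).1 hl
  · rcases hx' with ⟨rfl, b1, b2⟩ | ⟨rfl, b0, b1, b2⟩ | ⟨rfl, b0, b1, b2, b3⟩
    · omega
    · omega
    · left
      exact h4 V G n ψ h m x y x' y' hr a0 a1 a2 a3 b0 b1 b2 b3 hc hc' hne

theorem key_main (h1 : S_KLL) (h2 : S_KLR) (h3 : S_KLX) (h4 : S_KXX) {V : Type}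
    {G : SimpleGraph V} {n : ℕ} {ψ : ℕ → V} (h : Lab G n ψ) {m : ℕ} (hm : 0 < m) (hmn : m < n)
    (hr : Ch G ψ 0 m) {τ x y τ' x' y' : ℕ} (hx : Rp n m τ x y) (hx' : Rp n m τ' x' y')
    (hc : Ch G ψ x y) (hc' : Ch G ψ x' y') (hne : s(ψ x, ψ y) ≠ s(ψ x', ψ y'))
    (hne1 : s(ψ x, ψ y) ≠ s(ψ 0, ψ m)) (hne2 : s(ψ x', ψ y') ≠ s(ψ 0, ψ m)) :
    (∃ l, HasCyc G ψ {s(ψ 0, ψ m), s(ψ x, ψ y), s(ψ x', ψ y')} l) ∨
      HasCyc G ψ {s(ψ x, ψ y), s(ψ x', ψ y')}
        ((vl n τ x y - vl n τ' x' y') + (vl n τ' x' y' - vl n τ x y) + 2) := by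
  rcases le_total τ τ' with hle | hle
  · exact key_le h1 h2 h3 h4 h hm hmn hr hx hx' hc hc' hne hne1 hne2 hle
  · have h5 := key_le h1 h2 h3 h4 h hm hmn hr hx' hx hc' hc hne.symm hne2 hne1 hle
    rw [Set.pair_comm s(ψ x', ψ y') s(ψ x, ψ y),
      add_comm (vl n τ' x' y' - vl n τ x y) (vl n τ x y - vl n τ' x' y')] at h5
    exact h5

theorem key_root (h1 : S_KLL) (h2 : S_KLR) (h3 : S_KLX) (h4 : S_KXX) {V : Type}
    {G : SimpleGraph V} {n : ℕ} {φ : ℕ → V} (h : Lab G n φ) {i j : ℕ} (hij : i < j) (hj : j < n)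
    (hadj : G.Adj (φ i) (φ j)) (hcy : s(φ i, φ j) ∉ Cy φ) :
    ∃ u : Sym2 V → ℕ, (∀ c, u c ≤ n) ∧
    ∀ c c', c ∈ G.edgeSet → c ∉ Cy φ → c' ∈ G.edgeSet → c' ∉ Cy φ → c ≠ c' →
      c ≠ s(φ i, φ j) → c' ≠ s(φ i, φ j) →
      (∃ l, HasCyc G φ {s(φ i, φ j), c, c'} l) ∨
        HasCyc G φ {c, c'} ((u c - u c') + (u c' - u c) + 2) := by
  classical
  obtain ⟨ψ, hψ⟩ : ∃ ψ : ℕ → V, ψ = fun k => φ (k + i) := ⟨_, rfl⟩
  have e : ∀ k, ψ k = φ (k + i) := by
    intro k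
    rw [hψ]
  have hL : Lab G n ψ := by
    rw [hψ]
    exact key_shift h i
  have hC : Cy ψ = Cy φ := by
    rw [hψ]
    exact key_cy h i
  have hH : ∀ T l, HasCyc G ψ T l ↔ HasCyc G φ T l := by
    intro T l
    unfold HasCyc
    rw [hC]
  have e0 : ψ 0 = φ i := by rw [e, zero_add]
  have em : ψ (j - i) = φ j := by rw [e, Nat.sub_add_cancel hij.le]
  have hr : Ch G ψ 0 (j - i) := by
    unfold Ch
    rw [e0, em, hC]
    exact ⟨hadj, hcy⟩
  choose! τ x y hR using fun (c : Sym2 V) (hc : c ∈ G.edgeSet) =>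
    rp_exists (m := j - i) hL c hc
  refine ⟨fun c => if c ∈ G.edgeSet then vl n (τ c) (x c) (y c) else 0, fun c => ?_, ?_⟩
  · show (if c ∈ G.edgeSet then vl n (τ c) (x c) (y c) else 0) ≤ n
    split_ifs with hc
    · exact vl_le (by omega) (hR c hc).1
    · exact Nat.zero_le _
  · intro c c' hc hc1 hc' hc1' hne hne1 hne2
    show _ ∨ HasCyc G φ {c, c'} (((if c ∈ G.edgeSet then vl n (τ c) (x c) (y c) else 0) -
      (if c' ∈ G.edgeSet then vl n (τ c') (x c') (y c') else 0)) +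
      ((if c' ∈ G.edgeSet then vl n (τ c') (x c') (y c') else 0) -
      (if c ∈ G.edgeSet then vl n (τ c) (x c) (y c) else 0)) + 2)
    rw [if_pos hc, if_pos hc']
    obtain ⟨hr1, hr2⟩ := hR c hc
    obtain ⟨hr1', hr2'⟩ := hR c' hc'
    have hch : Ch G ψ (x c) (y c) := by
      unfold Ch
      rw [hC, ← hr2]
      refine ⟨?_, hc1⟩
      rw [← SimpleGraph.mem_edgeSet, ← hr2]
      exact hc
    have hch' : Ch G ψ (x c') (y c') := by
      unfold Ch
      rw [hC, ← hr2']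
      refine ⟨?_, hc1'⟩
      rw [← SimpleGraph.mem_edgeSet, ← hr2']
      exact hc'
    have h5 := key_main h1 h2 h3 h4 hL (by omega) (by omega) hr hr1 hr1' hch hch'
      (by rw [← hr2, ← hr2']; exact hne) (by rw [← hr2, e0, em]; exact hne1)
      (by rw [← hr2', e0, em]; exact hne2)
    rw [← hr2, ← hr2', e0, em] at h5
    rcases h5 with ⟨l, hl⟩ | h5
    · exact Or.inl ⟨l, (hH _ _).1 hl⟩
    · exact Or.inr ((hH _ _).1 h5)

theorem t_KEY (h1 : S_KLL) (h2 : S_KLR) (h3 : S_KLX) (h4 : S_KXX) : S_KEY := by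
  intro V G n φ h r hr hcy
  induction r using Sym2.ind with
  | _ a b =>
    obtain ⟨i, hi, rfl⟩ := h.surj a
    obtain ⟨j, hj, rfl⟩ := h.surj b
    have hadj : G.Adj (φ i) (φ j) := hr
    have hij : i ≠ j := by
      rintro rfl
      exact G.loopless.irrefl _ hadj
    rcases lt_or_gt_of_ne hij with h5 | h5
    · exact key_root h1 h2 h3 h4 h h5 hj hadj hcy
    · rw [show s(φ i, φ j) = s(φ j, φ i) from Sym2.eq_swap] at hcy ⊢
      exact key_root h1 h2 h3 h4 h h5 hi hadj.symm hcy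

end Pool.Agent.HDC
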