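import Pool.Agent.HDC.Stm

/-!
Piece KLL of project HDC (helper45).
-/

set_option autoImplicit false

namespace Pool.Agent.HDC

theorem kll_symm {V : Type} {G : SimpleGraph V} {φ : ℕ → V} {a b : ℕ} (h : Ch G φ a b) : Ch G φ b a :=
  ⟨h.1.symm, by rw [Sym2.eq_swap]; exact h.2⟩

theorem kll_core (h2 : S_CYC2) (h3 : S_CYC3) (V : Type) (G : SimpleGraph V) (n : ℕ) (φ : ℕ → V) (hL : Lab G n φ)
    (m x y x' y' : ℕ) (hm : 0 < m) (hmn : m < n) (h0 : Ch G φ 0 m) (hxy : x < y) (hym : y ≤ m) (hxy' : x' < y')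
    (hym' : y' ≤ m) (hc : Ch G φ x y) (hc' : Ch G φ x' y') (hne : s(φ x, φ y) ≠ s(φ x', φ y'))
    (hxx : x ≤ x') (hor : x < x' ∨ y' ≤ y) :
    (∃ l, HasCyc G φ {s(φ 0, φ m), s(φ x, φ y), s(φ x', φ y')} l) ∨
    HasCyc G φ {s(φ x, φ y), s(φ x', φ y')}
      (((y - x) - (y' - x')) + ((y' - x') - (y - x)) + 2) := by
  by_cases hyy : y' ≤ y
  · right
    have h := h2 V G n φ hL 0 x' x y y' (by omega) (by omega) (by omega) (by omega)
      (Or.inl ⟨by omega, by omega, by omega, by omega⟩) hc (kll_symm hc')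
      (by rw [Sym2.eq_swap (a := φ y')]; exact hne)
    rw [Sym2.eq_swap (a := φ y')] at h
    have e : (x' - x) + (x - x') + (y - y') + (y' - y) + 2 =
      ((y - x) - (y' - x')) + ((y' - x') - (y - x)) + 2 := by omega
    rw [e] at h
    exact h
  · left
    have hlt : x < x' := by omega
    obtain ⟨l, h⟩ := h3 V G n φ hL 0 0 x y x' y' m (by omega) (by omega) (by omega) (by omega) (by omega) (by omega)
      (Or.inl ⟨by omega, by omega, by omega, by omega⟩) (Or.inl ⟨by omega, by omega, by omega, by omega⟩)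
      (Or.inl ⟨by omega, by omega, by omega, by omega⟩) hc hc' (kll_symm h0)
    rw [Sym2.eq_swap (a := φ m)] at h
    have e : ({s(φ x, φ y), s(φ x', φ y'), s(φ 0, φ m)} : Set (Sym2 V)) =
      {s(φ 0, φ m), s(φ x, φ y), s(φ x', φ y')} := by
      ext z
      simp only [Set.mem_insert_iff, Set.mem_singleton_iff]
      tauto
    rw [e] at h
    exact ⟨l, h⟩

theorem t_KLL (h2 : S_CYC2) (h3 : S_CYC3) : S_KLL := by
  intro V G n φ hL m x y x' y' hm hmn h0 hxy hym hxy' hym' hc hc' hne _ _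
  by_cases hA : x ≤ x' ∧ (x < x' ∨ y' ≤ y)
  · exact kll_core h2 h3 V G n φ hL m x y x' y' hm hmn h0 hxy hym hxy' hym' hc hc' hne hA.1 hA.2
  · have h := kll_core h2 h3 V G n φ hL m x' y' x y hm hmn h0 hxy' hym' hxy hym hc' hc hne.symm
      (by omega) (by omega)
    have e1 : ({s(φ 0, φ m), s(φ x', φ y'), s(φ x, φ y)} : Set (Sym2 V)) =
      {s(φ 0, φ m), s(φ x, φ y), s(φ x', φ y')} := by
      ext z
      simp only [Set.mem_insert_iff, Set.mem_singleton_iff]
      tauto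
    have e2 : ({s(φ x', φ y'), s(φ x, φ y)} : Set (Sym2 V)) = {s(φ x, φ y), s(φ x', φ y')} := by
      ext z
      simp only [Set.mem_insert_iff, Set.mem_singleton_iff]
      tauto
    rw [e1, e2, add_comm ((y' - x') - (y - x))] at h
    exact h

end Pool.Agent.HDC
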