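import Pool.Agent.HDC.Stm

/-! # Project HDC, piece KLR: chords on different sides of the root chord -/

set_option autoImplicit false

namespace Pool.Agent.HDC

/-- **KLR** -/
theorem t_KLR (h1 : S_CYC2) : S_KLR := by
  intro V G n φ hL m x y x' y' _ hmn hxy hym hmx' hx'y' hy'n hC hC' hne
  have hp : φ (n + x) = φ x := by rw [Nat.add_comm]; exact hL.per x
  have h := h1 V G n φ hL y y x' y' (n + x) ⟨le_refl _, by omega⟩ ⟨by omega, by omega⟩
    ⟨by omega, by omega⟩ ⟨by omega, by omega⟩ (Or.inl ⟨by omega, by omega, by omega, by omega⟩)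
    hC' (by unfold Ch; rw [hp]; exact hC) (by rw [hp]; exact hne.symm)
  rw [hp, Set.pair_comm] at h
  have e : (y - x') + (x' - y) + (y' - (n + x)) + ((n + x) - y') + 2 =
      n - (y' - x') - (y - x) + 2 := by omega
  rw [e] at h
  exact h

end Pool.Agent.HDC
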