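import Pool.Agent.HDC.Stm

/-!
# HDC, pieces KLX and KXX (helper63): chords crossing the root chord
-/

set_option autoImplicit false

namespace Pool.Agent.HDC

namespace KX

variable {V : Type} {G : SimpleGraph V} {n : ℕ} {φ : ℕ → V}

theorem ch_symm {a b : ℕ} (h : Ch G φ a b) : Ch G φ b a := by
  refine ⟨h.1.symm, ?_⟩
  rw [Sym2.eq_swap]
  exact h.2

theorem per0 (L : Lab G n φ) : φ n = φ 0 := by
  have h := L.per 0
  rw [zero_add] at h
  exact h

theorem ch_mn (L : Lab G n φ) {m : ℕ} (h : Ch G φ 0 m) : Ch G φ m n := by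
  have h1 := ch_symm h
  unfold Ch at h1 ⊢
  rw [per0 L]
  exact h1

/-- one chord `(x, y)` crossing, one chord `(x', y')` left with `x' < x` -/
theorem base1 (h3 : S_CYC3) (L : Lab G n φ) (m x y x' y' : ℕ) (h0 : Ch G φ 0 m) (hxm : x < m)
    (hmy : m < y) (hyn : y < n) (hxy' : x' < y') (hy'm : y' < m) (hx'x : x' < x)
    (hc : Ch G φ x y) (hc' : Ch G φ x' y') :
    ∃ l, HasCyc G φ {s(φ 0, φ m), s(φ x, φ y), s(φ x', φ y')} l := by
  obtain ⟨l, hl⟩ := h3 V G n φ L 0 0 x' y' x y m ⟨by omega, by omega⟩ ⟨by omega, by omega⟩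
    ⟨by omega, by omega⟩ ⟨by omega, by omega⟩ ⟨by omega, by omega⟩ ⟨by omega, by omega⟩
    (Or.inl ⟨by omega, by omega, by omega, by omega⟩)
    (Or.inl ⟨by omega, by omega, by omega, by omega⟩)
    (Or.inl ⟨by omega, by omega, by omega, by omega⟩) hc' hc (ch_symm h0)
  refine ⟨l, ?_⟩
  rw [show ({s(φ 0, φ m), s(φ x, φ y), s(φ x', φ y')} : Set (Sym2 V)) =
    {s(φ x', φ y'), s(φ x, φ y), s(φ m, φ 0)} from by
      rw [Sym2.eq_swap (a := φ m)]
      ext e
      simp only [Set.mem_insert_iff, Set.mem_singleton_iff]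
      tauto]
  exact hl

/-- arcs `x → x'`, `y' → m`, `n → y` -/
theorem base2 (h3 : S_CYC3) (L : Lab G n φ) (m x y x' y' : ℕ) (h0 : Ch G φ 0 m) (hx : 0 < x)
    (hxx' : x ≤ x') (hx'm : x' < m) (hmy : m < y) (hyn : y < n) (hxy' : x' < y') (hy'y : y' < y)
    (hc : Ch G φ x y) (hc' : Ch G φ x' y') :
    ∃ l, HasCyc G φ {s(φ 0, φ m), s(φ x, φ y), s(φ x', φ y')} l := by
  obtain ⟨l, hl⟩ := h3 V G n φ L x x x' y' m n y ⟨by omega, by omega⟩ ⟨by omega, by omega⟩
    ⟨by omega, by omega⟩ ⟨by omega, by omega⟩ ⟨by omega, by omega⟩ ⟨by omega, by omega⟩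
    (Or.inl ⟨by omega, by omega, by omega, by omega⟩)
    (Or.inl ⟨by omega, by omega, by omega, by omega⟩)
    (Or.inl ⟨by omega, by omega, by omega, by omega⟩) hc' (ch_mn L h0) (ch_symm hc)
  refine ⟨l, ?_⟩
  rw [show ({s(φ 0, φ m), s(φ x, φ y), s(φ x', φ y')} : Set (Sym2 V)) =
    {s(φ x', φ y'), s(φ m, φ n), s(φ y, φ x)} from by
      rw [Sym2.eq_swap (a := φ m), Sym2.eq_swap (a := φ y), per0 L]
      ext e
      simp only [Set.mem_insert_iff, Set.mem_singleton_iff]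
      tauto]
  exact hl

/-- two crossing chords with `x < x'` -/
theorem base3 (h3 : S_CYC3) (L : Lab G n φ) (m x y x' y' : ℕ) (h0 : Ch G φ 0 m)
    (hxx' : x < x') (hx'm : x' < m) (hmy : m < y) (hyn : y < n) (hmy' : m < y') (hy'n : y' < n)
    (hc : Ch G φ x y) (hc' : Ch G φ x' y') :
    ∃ l, HasCyc G φ {s(φ 0, φ m), s(φ x, φ y), s(φ x', φ y')} l := by
  obtain ⟨l, hl⟩ := h3 V G n φ L 0 0 x y y' x' m ⟨by omega, by omega⟩ ⟨by omega, by omega⟩
    ⟨by omega, by omega⟩ ⟨by omega, by omega⟩ ⟨by omega, by omega⟩ ⟨by omega, by omega⟩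
    (Or.inl ⟨by omega, by omega, by omega, by omega⟩)
    (Or.inl ⟨by omega, by omega, by omega, by omega⟩)
    (Or.inr ⟨by omega, by omega, by omega, by omega⟩) hc (ch_symm hc') (ch_symm h0)
  refine ⟨l, ?_⟩
  rw [show ({s(φ 0, φ m), s(φ x, φ y), s(φ x', φ y')} : Set (Sym2 V)) =
    {s(φ x, φ y), s(φ y', φ x'), s(φ m, φ 0)} from by
      rw [Sym2.eq_swap (a := φ m), Sym2.eq_swap (a := φ y')]
      ext e
      simp only [Set.mem_insert_iff, Set.mem_singleton_iff]
      tauto]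
  exact hl

end KX

open KX in
theorem t_KLX (h3 : S_CYC3) : S_KLX := by
  intro V G n φ L m x y x' y' h0 hx hxm hmy hyn hxy' hy'm hc hc' hne
  rcases Nat.lt_or_ge x' x with hlt | hge
  · rcases Nat.lt_or_ge y' m with hlt' | hge'
    · exact base1 h3 L m x y x' y' h0 hxm hmy hyn hxy' hlt' hlt hc hc'
    · have hm : y' = m := le_antisymm hy'm hge'
      subst hm
      have hx' : 0 < x' := by
        rcases Nat.eq_zero_or_pos x' with h | h
        · rw [h] at hne
          exact absurd rfl hne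
        · exact h
      obtain ⟨l, hl⟩ := h3 V G n φ L x' x' x y n y' y' ⟨by omega, by omega⟩ ⟨by omega, by omega⟩
        ⟨by omega, by omega⟩ ⟨by omega, by omega⟩ ⟨by omega, by omega⟩ ⟨by omega, by omega⟩
        (Or.inl ⟨by omega, by omega, by omega, by omega⟩)
        (Or.inl ⟨by omega, by omega, by omega, by omega⟩)
        (Or.inr ⟨by omega, by omega, by omega, by omega⟩) hc (ch_symm (ch_mn L h0)) (ch_symm hc')
      refine ⟨l, ?_⟩
      rw [show ({s(φ 0, φ y'), s(φ x, φ y), s(φ x', φ y')} : Set (Sym2 V)) =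
        {s(φ x, φ y), s(φ n, φ y'), s(φ y', φ x')} from by
          rw [Sym2.eq_swap (a := φ y'), per0 L]
          ext e
          simp only [Set.mem_insert_iff, Set.mem_singleton_iff]
          tauto]
      exact hl
  · exact base2 h3 L m x y x' y' h0 hx hge (by omega) hmy hyn hxy' (by omega) hc hc'

open KX in
theorem t_KXX (h3 : S_CYC3) : S_KXX := by
  intro V G n φ L m x y x' y' h0 hx hxm hmy hyn hx' hx'm hmy' hy'n hc hc' hne
  have hsw : (∃ l, HasCyc G φ {s(φ 0, φ m), s(φ x', φ y'), s(φ x, φ y)} l) →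
      ∃ l, HasCyc G φ {s(φ 0, φ m), s(φ x, φ y), s(φ x', φ y')} l := by
    intro h
    rw [Set.pair_comm]
    exact h
  rcases lt_trichotomy x x' with h | h | h
  · exact base3 h3 L m x y x' y' h0 h hx'm hmy hyn hmy' hy'n hc hc'
  · subst h
    rcases lt_trichotomy y y' with h' | h' | h'
    · exact hsw (base2 h3 L m x y' x y h0 hx le_rfl hxm hmy' hy'n (by omega) h' hc' hc)
    · subst h'
      exact absurd rfl hne
    · exact base2 h3 L m x y x y' h0 hx le_rfl hxm hmy hyn (by omega) h' hc hc'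
  · exact hsw (base3 h3 L m x' y' x y h0 h hxm hmy' hy'n hmy hyn hc' hc)

end Pool.Agent.HDC
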