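import Pool.Agent.HDC.KLX

/-!
# HDC, piece KXX

`Pool.Agent.HDC.t_KXX (h3 : S_CYC3) : S_KXX` is proved in `KLX.lean`.
-/
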