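import Pool.Agent.HDC.Stm

/-!
# HDC, piece LOW (helper70)
-/

set_option autoImplicit false

namespace Pool.Agent.HDC

namespace LOWP

lemma mk (hH : S_FANH) (hE : S_FANE) (hD : S_FAND) (n : ℕ) (A : Finset ℕ) (hn : 3 ≤ n)
    (hA : ∀ a ∈ A, 1 ≤ a ∧ a < n) (h1 : 1 ∈ A) (h2 : n - 1 ∈ A) (hS : Sid A) (x : ℝ)
    (hx : x ≤ (n : ℝ) - 2 + A.card) :
    ∃ G : SimpleGraph (Fin n), G.IsHamiltonian ∧ Dcl G ∧ x ≤ (G.edgeSet.ncard : ℝ) := by
  refine ⟨fan n A, hH n A hn h1 h2, hD n A hn hA hS, ?_⟩
  have h3 := hE n A hn hA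
  have h4 : ((n - 2 + A.card : ℕ) : ℝ) ≤ ((fan n A).edgeSet.ncard : ℝ) := by exact_mod_cast h3
  rw [Nat.cast_add, Nat.cast_sub (by omega)] at h4
  push_cast at h4
  linarith

lemma shift (A : Finset ℕ) (M : ℕ) (hA : A.Nonempty) (hM : ∀ a ∈ A, a < M) (hS : Sid A) :
    ∃ A' : Finset ℕ, A'.card = A.card ∧ 1 ∈ A' ∧ (∀ a ∈ A', 1 ≤ a ∧ a ≤ M) ∧ Sid A' := by
  set m := A.min' hA with hm
  have hmm : ∀ a ∈ A, m ≤ a := fun a ha => Finset.min'_le _ _ ha
  refine ⟨A.image (fun a => a + 1 - m), ?_, ?_, ?_, ?_⟩
  · refine Finset.card_image_of_injOn fun a ha b hb h => ?_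
    have := hmm a ha
    have := hmm b hb
    have h' : a + 1 - m = b + 1 - m := h
    omega
  · exact Finset.mem_image.2 ⟨m, Finset.min'_mem _ _, by omega⟩
  · intro a ha
    obtain ⟨b, hb, rfl⟩ := Finset.mem_image.1 ha
    have := hmm b hb
    have := hM b hb
    omega
  · intro a ha b hb c hc d hd hab hcd h
    obtain ⟨a', ha', rfl⟩ := Finset.mem_image.1 ha
    obtain ⟨b', hb', rfl⟩ := Finset.mem_image.1 hb
    obtain ⟨c', hc', rfl⟩ := Finset.mem_image.1 hc
    obtain ⟨d', hd', rfl⟩ := Finset.mem_image.1 hd
    have i1 := hmm a' ha'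
    have i2 := hmm b' hb'
    have i3 := hmm c' hc'
    have i4 := hmm d' hd'
    obtain ⟨j1, j2⟩ := hS a' ha' b' hb' c' hc' d' hd' (by omega) (by omega) (by omega)
    rw [j1, j2]
    exact ⟨rfl, rfl⟩

end LOWP

open LOWP in
theorem t_LOW (hR : S_RUZ) (hH : S_FANH) (hE : S_FANE) (hD : S_FAND) : S_LOW := by
  refine ⟨fun N => ?_, fun n hn => ?_⟩
  · obtain ⟨p, hpN, hp⟩ := Nat.exists_infinite_primes (max N 3)
    have hpN1 : N ≤ p := (le_max_left _ _).trans hpN
    have hp3 : 3 ≤ p := (le_max_right _ _).trans hpN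
    obtain ⟨A, hc, hM, hS⟩ := hR p hp hp3
    have hne : A.Nonempty := by
      rw [← Finset.card_pos]
      omega
    obtain ⟨A', hc', h1, hM', hS'⟩ := shift A _ hne hM hS
    have hne' : A'.Nonempty := ⟨1, h1⟩
    have hmax := Finset.max'_mem A' hne'
    set mx := A'.max' hne' with hmx
    have hle : ∀ a ∈ A', a ≤ mx := fun a ha => Finset.le_max' _ _ ha
    have hcard : A'.card ≤ mx := by
      have : A' ⊆ Finset.Icc 1 mx := fun a ha => Finset.mem_Icc.2 ⟨(hM' a ha).1, hle a ha⟩
      have h2 := Finset.card_le_card this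
      rw [Nat.card_Icc] at h2
      omega
    have hmx2 := (hM' mx hmax).2
    refine ⟨mx + 1, by omega, by omega, ?_⟩
    refine mk hH hE hD (mx + 1) A' (by omega) (fun a ha => ⟨(hM' a ha).1, ?_⟩) h1
      (by rw [Nat.add_sub_cancel]; exact hmax) hS' _ ?_
    · have := hle a ha
      omega
    · have h5 : Real.sqrt ((mx + 1 : ℕ) : ℝ) ≤ p := by
        rw [Real.sqrt_le_left (by positivity)]
        have h6 : mx + 1 ≤ p ^ 2 := by
          obtain ⟨q, rfl⟩ : ∃ q, p = q + 1 := ⟨p - 1, by omega⟩
          rw [Nat.add_sub_cancel] at hmx2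
          nlinarith
        exact_mod_cast h6
      have h7 : (A'.card : ℝ) = p - 1 := by
        rw [hc', hc, Nat.cast_sub (by omega), Nat.cast_one]
      rw [h7]
      linarith
  · by_cases h32 : n < 32
    · refine mk hH hE hD n {1, n - 1} hn ?_ (by simp) (by simp) ?_ _ ?_
      · intro a ha
        rw [Finset.mem_insert, Finset.mem_singleton] at ha
        omega
      · intro a ha b hb c hc d hd hab hcd h
        rw [Finset.mem_insert, Finset.mem_singleton] at ha hb hc hd
        omega
      · rw [Finset.card_pair (by omega)]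
        have h1 : Real.sqrt ((n : ℝ) / 8) ≤ 2 := by
          rw [Real.sqrt_le_left (by norm_num)]
          have : (n : ℝ) < 32 := by exact_mod_cast h32
          linarith
        push_cast
        linarith
    · set m := Nat.sqrt (n / 8) with hm
      have hm2 : 2 ≤ m := by
        rw [hm, Nat.le_sqrt]
        omega
      have hmm : m * m ≤ n / 8 := Nat.sqrt_le _
      have hmm' : n / 8 < (m + 1) * (m + 1) := Nat.lt_succ_sqrt _
      obtain ⟨p, hp, hmp, hp2⟩ := Nat.exists_prime_lt_and_le_two_mul m (by omega)
      have hp3 : 3 ≤ p := by omega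
      obtain ⟨A, hc, hM, hS⟩ := hR p hp hp3
      have hne : A.Nonempty := by
        rw [← Finset.card_pos]
        omega
      obtain ⟨A', hc', h1, hM', hS'⟩ := shift A _ hne hM hS
      set Q := p * (p - 1) with hQ
      have hQn : 2 * Q + 2 ≤ n := by
        obtain ⟨q, hq⟩ : ∃ q, p = q + 1 := ⟨p - 1, by omega⟩
        have h8 : 8 * (m * m) ≤ n := by omega
        have h9 : Q = (q + 1) * q := by rw [hQ, hq, Nat.add_sub_cancel]
        have h10 : q + 1 ≤ 2 * m := by omega
        have h11 : (q + 1) * (q + 1) ≤ (2 * m) * (2 * m) := Nat.mul_le_mul h10 h10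
        have h12 : 1 ≤ q := by omega
        nlinarith
      have hnot : n - 1 ∉ A' := fun h => by
        have := (hM' _ h).2
        omega
      refine mk hH hE hD n (insert (n - 1) A') hn ?_ (Finset.mem_insert_of_mem h1)
        (Finset.mem_insert_self _ _) ?_ _ ?_
      · intro a ha
        rw [Finset.mem_insert] at ha
        rcases ha with rfl | ha
        · omega
        · have := hM' a ha
          omega
      · intro a ha b hb c hc1 d hd hab hcd h
        rw [Finset.mem_insert] at ha hb hc1 hd
        have ha' : a ∈ A' := by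
          rcases ha with ha | ha
          · rcases hb with hb | hb
            · omega
            · have := hM' b hb
              omega
          · exact ha
        have hc2 : c ∈ A' := by
          rcases hc1 with hc1 | hc1
          · rcases hd with hd | hd
            · omega
            · have := hM' d hd
              omega
          · exact hc1
        have i1 := hM' a ha'
        have i2 := hM' c hc2
        rcases hb with hb | hb
        · rcases hd with hd | hd
          · omega
          · have := hM' d hd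
            omega
        · rcases hd with hd | hd
          · have := hM' b hb
            omega
          · exact hS' a ha' b hb c hc2 d hd hab hcd h
      · rw [Finset.card_insert_of_notMem hnot, hc', hc]
        have h13 : p - 1 + 1 = p := by omega
        rw [h13]
        have h14 : Real.sqrt ((n : ℝ) / 8) ≤ p := by
          rw [Real.sqrt_le_left (by positivity)]
          have h15 : n < 8 * (p * p) := by
            have h16 : (m + 1) * (m + 1) ≤ p * p := Nat.mul_le_mul (by omega) (by omega)
            omega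
          have h17 : (n : ℝ) < 8 * ((p : ℝ) * p) := by exact_mod_cast h15
          nlinarith
        linarith

end Pool.Agent.HDC
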