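import Pool.Agent.HDC.Stm2
import Pool.Agent.H119R2.Kp.NT

/-!
# PROJECT HDC, piece LOWA (helper46): the asymptotic lower bound
-/

set_option autoImplicit false

namespace Pool.Agent.HDC

theorem t_LOWA (h1 : S_MARK) (h2 : S_FANH) (h3 : S_FANE) (h4 : S_FAND) : S_LOWA := by
  intro ε0 hε0
  obtain ⟨ε, hεpos, hε1, hε2⟩ : ∃ ε : ℝ, 0 < ε ∧ ε ≤ 1 ∧ ε ≤ ε0 :=
    ⟨min ε0 1, lt_min hε0 one_pos, min_le_right _ _, min_le_left _ _⟩
  obtain ⟨δ, hδ⟩ : ∃ δ : ℝ, δ = ε ^ 2 / 64 := ⟨_, rfl⟩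
  have hδpos : 0 < δ := by rw [hδ]; positivity
  have hδ1 : δ ≤ 1 := by
    rw [hδ]
    nlinarith
  obtain ⟨N1, hN1⟩ := Pool.Agent.H119R2.Kp.prime_between δ hδpos
  obtain ⟨B, hB⟩ : ∃ B : ℝ, B = N1 + 5 / δ + 4 / ε + 3 := ⟨_, rfl⟩
  have hN1n : (0 : ℝ) ≤ N1 := Nat.cast_nonneg _
  have h5δ : 0 < 5 / δ := by positivity
  have h4ε : 0 < 4 / ε := by positivity
  refine ⟨⌈B ^ 2⌉₊, fun n hn => ?_⟩
  have hnB : B ^ 2 ≤ (n : ℝ) := (Nat.le_ceil _).trans (by exact_mod_cast hn)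
  obtain ⟨s, hs⟩ : ∃ s : ℝ, s = Real.sqrt n := ⟨_, rfl⟩
  have hsB : B ≤ s := by
    rw [hs]
    exact Real.le_sqrt_of_sq_le hnB
  have hs2 : s ^ 2 = n := by
    rw [hs]
    exact Real.sq_sqrt (Nat.cast_nonneg n)
  have hsN : (N1 : ℝ) ≤ s := by linarith
  have hsδ : 5 / δ ≤ s := by linarith
  have hsε : 4 / ε ≤ s := by linarith
  have hs3 : 3 ≤ s := by linarith
  have hsδ' : 5 ≤ δ * s := by
    rw [div_le_iff₀ hδpos] at hsδ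
    linarith
  have hsε' : 4 ≤ ε * s := by
    rw [div_le_iff₀ hεpos] at hsε
    linarith
  obtain ⟨p, hp, hps, hps'⟩ := hN1 s hsN
  have hn3r : (3 : ℝ) ≤ n := by
    rw [← hs2]
    nlinarith [hs3]
  have hn3 : 3 ≤ n := by exact_mod_cast hn3r
  have hpnr : (n : ℝ) < (p : ℝ) ^ 2 := by
    rw [← hs2]
    exact pow_lt_pow_left₀ hps (by linarith) two_ne_zero
  have hpn : n < p ^ 2 := by exact_mod_cast hpnr
  obtain ⟨A, hA1, hA2, hA3, hA4, hA5⟩ := h1 p hp (n - 2) (by omega) (by omega)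
  have hA2' : n - 1 ∈ A := by
    have h : n - 2 + 1 = n - 1 := by omega
    rwa [h] at hA2
  have hA3' : ∀ a ∈ A, 1 ≤ a ∧ a < n := by
    intro a ha
    have := hA3 a ha
    omega
  refine ⟨fan n A, h2 n A hn3 hA1 hA2', h4 n A hn3 hA3' hA4, ?_⟩
  have hE := h3 n A hn3 hA3'
  have hEr : (n : ℝ) - 2 + A.card ≤ ((fan n A).edgeSet.ncard : ℝ) := by
    have h : ((n - 2 + A.card : ℕ) : ℝ) ≤ ((fan n A).edgeSet.ncard : ℝ) := Nat.cast_le.2 hE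
    rw [Nat.cast_add, Nat.cast_sub (by omega : 2 ≤ n)] at h
    exact_mod_cast h
  obtain ⟨k, hk⟩ : ∃ k, k = p - A.card := ⟨_, rfl⟩
  rw [← hk] at hA5
  have hkp : p ≤ A.card + k := by omega
  have hkr : (p : ℝ) ≤ A.card + k := by exact_mod_cast hkp
  have hk2 : (k : ℝ) ^ 2 ≤ 2 * ((p : ℝ) ^ 2 + p + 1 - (n - 2)) := by
    have h : ((k ^ 2 : ℕ) : ℝ) ≤ ((2 * (p ^ 2 + p + 1 - (n - 2)) : ℕ) : ℝ) := Nat.cast_le.2 hA5
    rw [Nat.cast_mul, Nat.cast_sub (by omega : n - 2 ≤ p ^ 2 + p + 1),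
      Nat.cast_sub (by omega : 2 ≤ n)] at h
    push_cast at h
    exact h
  have hp0 : (0 : ℝ) ≤ p := Nat.cast_nonneg _
  have hs0 : 0 ≤ s := le_trans (by norm_num) hs3
  have hp2 : (p : ℝ) ^ 2 ≤ (1 + δ) ^ 2 * s ^ 2 := by
    rw [← mul_pow]
    exact pow_le_pow_left₀ hp0 hps'.le 2
  have hδs : 5 * s ≤ δ * s ^ 2 := by
    have h := mul_le_mul_of_nonneg_right hsδ' hs0
    calc 5 * s ≤ δ * s * s := h
      _ = δ * s ^ 2 := by ring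
  have hδ2 : δ ^ 2 * s ^ 2 ≤ δ * s ^ 2 := by
    have h : δ ^ 2 ≤ δ := by
      have h' := mul_le_mul_of_nonneg_left hδ1 hδpos.le
      calc δ ^ 2 = δ * δ := by ring
        _ ≤ δ * 1 := h'
        _ = δ := mul_one δ
    exact mul_le_mul_of_nonneg_right h (by positivity)
  have hδs1 : δ * s ≤ s := by
    have h := mul_le_mul_of_nonneg_right hδ1 hs0
    linarith
  have hk3 : (k : ℝ) ^ 2 ≤ 8 * δ * s ^ 2 := by
    have e1 : (1 + δ) ^ 2 * s ^ 2 = s ^ 2 + 2 * (δ * s ^ 2) + δ ^ 2 * s ^ 2 := by ring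
    have e2 : (p : ℝ) ≤ s + δ * s := by linarith
    rw [← hs2] at hk2
    rw [e1] at hp2
    have e3 : 8 * δ * s ^ 2 = 8 * (δ * s ^ 2) := by ring
    rw [e3]
    linarith
  have hk4 : (k : ℝ) ^ 2 ≤ (ε / 2 * s) ^ 2 := by
    have e1 : 8 * δ * s ^ 2 = ε ^ 2 * s ^ 2 / 8 := by
      rw [hδ]
      ring
    have e2 : 0 ≤ ε ^ 2 * s ^ 2 := by positivity
    have e3 : (ε / 2 * s) ^ 2 = ε ^ 2 * s ^ 2 / 4 := by ring
    rw [e3]
    linarith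
  have hk5 : (k : ℝ) ≤ ε / 2 * s :=
    (pow_le_pow_iff_left₀ (Nat.cast_nonneg k) (by positivity) two_ne_zero).1 hk4
  have hfin : (1 - ε0) * s ≤ (1 - ε) * s := mul_le_mul_of_nonneg_right (by linarith) hs0
  rw [← hs]
  have e4 : (1 - ε) * s = s - ε * s := by ring
  have e5 : ε / 2 * s = ε * s / 2 := by ring
  rw [e4] at hfin
  rw [e5] at hk5
  linarith

end Pool.Agent.HDC
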