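import Pool.Agent.HDC.Stm2

/-!
# PROJECT HDC, piece MARK (helper46): Sidon sets in `[1, L+1]` with both end points
-/

set_option autoImplicit false

namespace Pool.Agent.HDC

theorem mark_aux (p M L : ℕ) (R : Finset (ZMod M)) (hRc : R.card = p + 1)
    (hR1 : ∀ g : ZMod M, g ≠ 0 → ∃ x ∈ R, ∃ y ∈ R, y - x = g)
    (hR2 : ∀ x ∈ R, ∀ y ∈ R, ∀ x' ∈ R, ∀ y' ∈ R, x ≠ y → y - x = y' - x' → x = x' ∧ y = y')
    (hL : 1 ≤ L) (hLM : L < M) :
    ∃ A : Finset ℕ, 1 ∈ A ∧ L + 1 ∈ A ∧ (∀ a ∈ A, 1 ≤ a ∧ a ≤ L + 1) ∧ Sid A ∧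
      (p - A.card) ^ 2 ≤ 2 * (M - L) := by
  classical
  have hMpos : 0 < M := by omega
  have : NeZero M := ⟨hMpos.ne'⟩
  have hcast : ∀ a b : ℕ, a < M → b < M → (a : ZMod M) = (b : ZMod M) → a = b := by
    intro a b ha hb h
    have h' := (ZMod.natCast_eq_natCast_iff a b M).1 h
    exact Nat.ModEq.eq_of_lt_of_lt h' ha hb
  have hL0 : (L : ZMod M) ≠ 0 := by
    intro h
    have := hcast L 0 hLM hMpos (by simpa using h)
    omega
  obtain ⟨x, hx, y, hy, hxy⟩ := hR1 L hL0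
  set T : Finset ℕ := (Finset.Icc 1 M).filter (fun t => x + ((t - 1 : ℕ) : ZMod M) ∈ R) with hT
  have hTmem : ∀ t, t ∈ T ↔ (1 ≤ t ∧ t ≤ M) ∧ x + ((t - 1 : ℕ) : ZMod M) ∈ R := by
    intro t
    rw [hT, Finset.mem_filter, Finset.mem_Icc]
  have hTs : Sid T := by
    intro a ha b hb c hc d hd hab hcd hd'
    rw [hTmem] at ha hb hc hd
    have e1 : ((b - 1 : ℕ) : ZMod M) = ((a - 1 : ℕ) : ZMod M) + ((b - a : ℕ) : ZMod M) := by
      rw [← Nat.cast_add]
      congr 1
      omega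
    have e2 : ((d - 1 : ℕ) : ZMod M) = ((c - 1 : ℕ) : ZMod M) + ((b - a : ℕ) : ZMod M) := by
      rw [← Nat.cast_add]
      congr 1
      omega
    have hne : x + ((a - 1 : ℕ) : ZMod M) ≠ x + ((b - 1 : ℕ) : ZMod M) := by
      intro h
      have h' := hcast _ _ (by omega) (by omega) (add_left_cancel h)
      omega
    have heq : x + ((b - 1 : ℕ) : ZMod M) - (x + ((a - 1 : ℕ) : ZMod M)) =
        x + ((d - 1 : ℕ) : ZMod M) - (x + ((c - 1 : ℕ) : ZMod M)) := by
      rw [e1, e2]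
      ring
    obtain ⟨h2, h3⟩ := hR2 _ ha.2 _ hb.2 _ hc.2 _ hd.2 hne heq
    have h2' := hcast _ _ (by omega) (by omega) (add_left_cancel h2)
    have h3' := hcast _ _ (by omega) (by omega) (add_left_cancel h3)
    omega
  have hTc : T.card = p + 1 := by
    rw [← hRc]
    refine Finset.card_bij (fun t _ => x + ((t - 1 : ℕ) : ZMod M)) ?_ ?_ ?_
    · intro t ht
      exact ((hTmem t).1 ht).2
    · intro s hs t ht h
      rw [hTmem] at hs ht
      have h' := hcast _ _ (by omega) (by omega) (add_left_cancel h)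
      omega
    · intro r hr
      have hlt := ZMod.val_lt (r - x)
      have hval : ((r - x).val : ZMod M) = r - x := ZMod.natCast_zmod_val _
      refine ⟨(r - x).val + 1, ?_, ?_⟩
      · rw [hTmem]
        refine ⟨⟨by omega, by omega⟩, ?_⟩
        rw [Nat.add_sub_cancel, hval]
        simpa using hr
      · rw [Nat.add_sub_cancel, hval]
        ring
  set A : Finset ℕ := T.filter (fun t => t ≤ L + 1) with hA
  set C : Finset ℕ := T.filter (fun t => ¬ t ≤ L + 1) with hC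
  have hAC : A.card + C.card = p + 1 := by
    rw [← hTc]
    exact Finset.card_filter_add_card_filter_not _
  have hAT : ∀ t, t ∈ A → t ∈ T ∧ t ≤ L + 1 := fun t ht => Finset.mem_filter.1 ht
  have hCT : ∀ t, t ∈ C → t ∈ T ∧ ¬ t ≤ L + 1 := fun t ht => Finset.mem_filter.1 ht
  refine ⟨A, ?_, ?_, ?_, ?_, ?_⟩
  · refine Finset.mem_filter.2 ⟨(hTmem 1).2 ⟨⟨le_rfl, hMpos⟩, ?_⟩, by omega⟩
    simpa using hx
  · refine Finset.mem_filter.2 ⟨(hTmem _).2 ⟨⟨by omega, by omega⟩, ?_⟩, le_rfl⟩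
    rw [Nat.add_sub_cancel, ← hxy]
    simpa using hy
  · intro a ha
    exact ⟨((hTmem a).1 (hAT a ha).1).1.1, (hAT a ha).2⟩
  · intro a ha b hb c hc d hd
    exact hTs a (hAT a ha).1 b (hAT b hb).1 c (hAT c hc).1 d (hAT d hd).1
  · have hoff : C.offDiag.card ≤ ((Finset.Icc (-((M - L : ℕ) : ℤ)) ((M - L : ℕ) : ℤ)).erase 0).card := by
      refine Finset.card_le_card_of_injOn (fun q : ℕ × ℕ => (q.2 : ℤ) - (q.1 : ℤ)) ?_ ?_
      · intro q hq
        have hq' := Finset.mem_offDiag.1 (Finset.mem_coe.1 hq)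
        have h1 := hCT _ hq'.1
        have h2 := hCT _ hq'.2.1
        have h3 := ((hTmem _).1 h1.1).1
        have h4 := ((hTmem _).1 h2.1).1
        have h5 := hq'.2.2
        show ((q.2 : ℤ) - (q.1 : ℤ)) ∈ _
        rw [Finset.mem_coe, Finset.mem_erase, Finset.mem_Icc]
        refine ⟨by omega, by omega, by omega⟩
      · intro q hq r hr h
        have hq' := Finset.mem_offDiag.1 (Finset.mem_coe.1 hq)
        have hr' := Finset.mem_offDiag.1 (Finset.mem_coe.1 hr)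
        have hq1 := (hCT _ hq'.1).1
        have hq2 := (hCT _ hq'.2.1).1
        have hr1 := (hCT _ hr'.1).1
        have hr2 := (hCT _ hr'.2.1).1
        have hq3 := hq'.2.2
        have hr3 := hr'.2.2
        have h' : (q.2 : ℤ) - (q.1 : ℤ) = (r.2 : ℤ) - (r.1 : ℤ) := h
        rcases lt_or_gt_of_ne hq3 with hlt | hlt
        · obtain ⟨e1, e2⟩ := hTs _ hq1 _ hq2 _ hr1 _ hr2 hlt (by omega) (by omega)
          exact Prod.ext e1 e2
        · obtain ⟨e1, e2⟩ := hTs _ hq2 _ hq1 _ hr2 _ hr1 hlt (by omega) (by omega)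
          exact Prod.ext e2 e1
    have hcard : ((Finset.Icc (-((M - L : ℕ) : ℤ)) ((M - L : ℕ) : ℤ)).erase 0).card = 2 * (M - L) := by
      rw [Finset.card_erase_of_mem (by rw [Finset.mem_Icc]; omega), Int.card_Icc]
      omega
    rw [hcard, Finset.offDiag_card] at hoff
    rcases Nat.eq_zero_or_pos C.card with h0 | h0
    · have : p - A.card = 0 := by omega
      rw [this]
      simp
    · obtain ⟨k, hk⟩ : ∃ k, C.card = k + 1 := ⟨C.card - 1, by omega⟩
      have hpk : p - A.card = k := by omega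
      rw [hpk]
      rw [hk] at hoff
      have : (k + 1) * (k + 1) - (k + 1) = k ^ 2 + k := by
        have : (k + 1) * (k + 1) = k ^ 2 + k + (k + 1) := by ring
        omega
      omega

theorem t_MARK (h1 : S_SING) : S_MARK := by
  intro p hp L hL hLM
  obtain ⟨R, hRc, hR1, hR2⟩ := h1 p hp
  exact mark_aux p (p ^ 2 + p + 1) L R hRc hR1 hR2 hL hLM

end Pool.Agent.HDC
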