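import Pool.Agent.HDC.Stm2

/-!
# PROJECT HDC: assembly (helper33)
-/

set_option autoImplicit false

namespace Pool.Agent.HDC

open Filter Topology

/-- the possible numbers of edges -/
def HS (n : ℕ) : Set ℕ :=
  {m | ∃ G : SimpleGraph (Fin n), G.IsHamiltonian ∧ Dcl G ∧ G.edgeSet.ncard = m}

theorem upper (hHAM : S_HAM) (hCNT : S_CNT) (hFIN : S_FIN) (n : ℕ) (hn : 3 ≤ n) (m : ℕ)
    (hm : m ∈ HS n) : (m : ℝ) ≤ n + Real.sqrt n + 100 * (n : ℝ) ^ (1 / 4 : ℝ) := by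
  obtain ⟨G, hG, hD, rfl⟩ := hm
  obtain ⟨φ, hφ⟩ := hHAM n hn G hG
  obtain ⟨k, b, h1, h2, h3⟩ := hCNT n G φ hφ hD
  have h4 := hFIN n k b hn h2 h3
  rw [← Real.sqrt_eq_rpow] at h4
  have h5 : (G.edgeSet.ncard : ℝ) ≤ (n : ℝ) + k := by exact_mod_cast h1
  linarith

theorem greatest (hHAM : S_HAM) (hCNT : S_CNT) (hFIN : S_FIN) (hLOW : S_LOW) (n : ℕ) (hn : 3 ≤ n) :
    IsGreatest (HS n) (sSup (HS n)) := by
  obtain ⟨G, hG, hD, _⟩ := hLOW.2 n hn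
  have hne : (HS n).Nonempty := ⟨_, G, hG, hD, rfl⟩
  have hb : BddAbove (HS n) := by
    refine ⟨⌈(n : ℝ) + Real.sqrt n + 100 * (n : ℝ) ^ (1 / 4 : ℝ)⌉₊, fun m hm => ?_⟩
    have h1 := upper hHAM hCNT hFIN n hn m hm
    have h2 := h1.trans (Nat.le_ceil _)
    exact_mod_cast h2
  exact ⟨Nat.sSup_mem hne hb, fun m hm => le_csSup hb hm⟩

theorem tends (hHAM : S_HAM) (hCNT : S_CNT) (hFIN : S_FIN) (hLOW : S_LOW) (hLOWA : S_LOWA) :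
    Tendsto (fun n : ℕ => (((sSup (HS n) : ℕ) : ℝ) - n) / Real.sqrt n) atTop (𝓝 1) := by
  have hup : Tendsto (fun n : ℕ => 1 + 100 * ((n : ℝ) ^ (-(1 / 4) : ℝ))) atTop (𝓝 (1 + 100 * 0)) := by
    have h1 : Tendsto (fun n : ℕ => (n : ℝ) ^ (-(1 / 4) : ℝ)) atTop (𝓝 0) :=
      (tendsto_rpow_neg_atTop (by norm_num : (0 : ℝ) < 1 / 4)).comp tendsto_natCast_atTop_atTop
    exact (h1.const_mul 100).const_add 1
  rw [mul_zero, add_zero] at hup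
  rw [Metric.tendsto_atTop] at hup ⊢
  intro ε hε
  obtain ⟨N1, h1⟩ := hup ε hε
  obtain ⟨N2, h2⟩ := hLOWA (ε / 2) (by positivity)
  refine ⟨max (max N1 N2) 3, fun n hn => ?_⟩
  have hn1 : N1 ≤ n := (le_max_left _ _).trans ((le_max_left _ _).trans hn)
  have hn2 : N2 ≤ n := (le_max_right _ _).trans ((le_max_left _ _).trans hn)
  have hn3 : 3 ≤ n := (le_max_right _ _).trans hn
  have hg := greatest hHAM hCNT hFIN hLOW n hn3
  have hn0 : (0 : ℝ) < n := by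
    have : (3 : ℝ) ≤ n := by exact_mod_cast hn3
    linarith
  have hs : 0 < Real.sqrt n := Real.sqrt_pos.2 hn0
  obtain ⟨G, hG, hD, hc⟩ := h2 n hn2
  have hlow : (n : ℝ) + (1 - ε / 2) * Real.sqrt n ≤ ((sSup (HS n) : ℕ) : ℝ) := by
    have h3 : G.edgeSet.ncard ≤ sSup (HS n) := hg.2 ⟨G, hG, hD, rfl⟩
    have h4 : (G.edgeSet.ncard : ℝ) ≤ ((sSup (HS n) : ℕ) : ℝ) := by exact_mod_cast h3
    linarith
  have hupp := upper hHAM hCNT hFIN n hn3 _ hg.1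
  have h5 := h1 n hn1
  rw [Real.dist_eq, abs_lt] at h5 ⊢
  have e1 : (n : ℝ) ^ (1 / 4 : ℝ) = (n : ℝ) ^ (-(1 / 4) : ℝ) * Real.sqrt n := by
    rw [Real.sqrt_eq_rpow, ← Real.rpow_add hn0]
    norm_num
  constructor
  · rw [lt_sub_iff_add_lt, lt_div_iff₀ hs]
    nlinarith
  · rw [sub_lt_iff_lt_add, div_lt_iff₀ hs]
    rw [e1] at hupp
    have h6 : 100 * ((n : ℝ) ^ (-(1 / 4) : ℝ)) < ε := by linarith [h5.2]
    nlinarith

end Pool.Agent.HDC
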