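import Pool.Agent.HDC.Stm

/-!
# PROJECT HDC (helper33), piece RUZ (helper72): Ruzsa's Sidon sets
-/

set_option autoImplicit false

namespace Pool.Agent.HDC

theorem t_RUZ : S_RUZ := by
  intro p hp hp3
  haveI : Fact p.Prime := ⟨hp⟩
  obtain ⟨g, hg⟩ := IsCyclic.exists_ofOrder_eq_natCard (α := (ZMod p)ˣ)
  have hord : orderOf g = p - 1 := by
    rw [hg, Nat.card_eq_fintype_card, ZMod.card_units]
  have hcop : Nat.Coprime (p - 1) p := by
    rw [Nat.coprime_comm, hp.coprime_iff_not_dvd]
    intro h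
    have := Nat.le_of_dvd (by omega) h
    omega
  let x : ℕ → ZMod p := fun i => ((g ^ i : (ZMod p)ˣ) : ZMod p)
  let c : ℕ → ℕ := fun i => (Nat.chineseRemainder hcop i (x i).val).1
  have hc1 : ∀ i, c i ≡ i [MOD (p - 1)] := fun i => (Nat.chineseRemainder hcop i (x i).val).2.1
  have hc2 : ∀ i, c i ≡ (x i).val [MOD p] := fun i => (Nat.chineseRemainder hcop i (x i).val).2.2
  have hc3 : ∀ i, c i < (p - 1) * p := fun i =>
    Nat.chineseRemainder_lt_mul hcop _ _ (by omega) (by omega)
  have hcx : ∀ i, (c i : ZMod p) = x i := fun i => by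
    have h := (ZMod.natCast_eq_natCast_iff _ _ _).2 (hc2 i)
    rw [h, ZMod.natCast_zmod_val]
  have hmod : ∀ i j, i < p - 1 → j < p - 1 → i ≡ j [MOD (p - 1)] → i = j := fun i j hi hj h =>
    Nat.ModEq.eq_of_lt_of_lt h hi hj
  have hinj : ∀ i j, i < p - 1 → j < p - 1 → c i = c j → i = j := fun i j hi hj h =>
    hmod i j hi hj ((hc1 i).symm.trans (h ▸ hc1 j))
  have hxinj : ∀ i j, i < p - 1 → j < p - 1 → x i = x j → i = j := by
    intro i j hi hj h
    have h1 : g ^ i = g ^ j := Units.ext h
    rw [pow_eq_pow_iff_modEq, hord] at h1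
    exact hmod i j hi hj h1
  refine ⟨(Finset.range (p - 1)).image c, ?_, ?_, ?_⟩
  · rw [Finset.card_image_of_injOn, Finset.card_range]
    intro i hi j hj h
    simp only [Finset.coe_range, Set.mem_Iio] at hi hj
    exact hinj i j hi hj h
  · intro a ha
    obtain ⟨i, -, rfl⟩ := Finset.mem_image.1 ha
    rw [mul_comm]
    exact hc3 i
  · intro a ha b hb c' hc' d hd hab hcd h
    obtain ⟨i, hi, rfl⟩ := Finset.mem_image.1 ha
    obtain ⟨j, hj, rfl⟩ := Finset.mem_image.1 hb
    obtain ⟨k, hk, rfl⟩ := Finset.mem_image.1 hc'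
    obtain ⟨l, hl, rfl⟩ := Finset.mem_image.1 hd
    rw [Finset.mem_range] at hi hj hk hl
    have hsum : c i + c l = c j + c k := by omega
    have hs1 : i + l ≡ j + k [MOD (p - 1)] := by
      have h1 : c i + c l ≡ i + l [MOD (p - 1)] := (hc1 i).add (hc1 l)
      have h2 : c j + c k ≡ j + k [MOD (p - 1)] := (hc1 j).add (hc1 k)
      rw [hsum] at h1
      exact h1.symm.trans h2
    have hmul : x i * x l = x j * x k := by
      have h1 : g ^ (i + l) = g ^ (j + k) := by
        rw [pow_eq_pow_iff_modEq, hord]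
        exact hs1
      rw [pow_add, pow_add] at h1
      have h2 := congrArg Units.val h1
      rw [Units.val_mul, Units.val_mul] at h2
      exact h2
    have hadd : x i + x l = x j + x k := by
      have h1 := congrArg (fun m : ℕ => (m : ZMod p)) hsum
      simp only [Nat.cast_add, hcx] at h1
      exact h1
    have h0 : (x i - x j) * (x i - x k) = 0 := by
      linear_combination (-1 : ZMod p) * hmul + x i * hadd
    rcases mul_eq_zero.1 h0 with h1 | h1
    · have h2 := hxinj i j hi hj (sub_eq_zero.1 h1)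
      subst h2
      exact absurd hab (lt_irrefl _)
    · have h2 := hxinj i k hi hk (sub_eq_zero.1 h1)
      subst h2
      exact ⟨rfl, by omega⟩

end Pool.Agent.HDC
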