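import Pool.Agent.HDC.Stm2
import Pool.Agent.R114.SIC.Sidon

/-!
# PROJECT HDC, piece SING (helper55): Singer's perfect difference set in `ZMod (p^2+p+1)`
-/

set_option autoImplicit false

namespace Pool.Agent.HDC

open Pool.Agent.H109R2.SIC Pool.Agent.R114.SIC

theorem t_SING : S_SING := by
  classical
  intro p hp
  have : Fact p.Prime := ⟨hp⟩
  have hcyc : IsAddCyclic (A3 p) := by
    have h1 : IsCyclic (G3 p) := by
      unfold G3
      infer_instance
    have h2 : IsAddCyclic (Additive (G3 p)) := inferInstance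
    exact h2
  have hcard : Nat.card (A3 p) = p ^ 2 + p + 1 := by
    rw [Nat.card_eq_fintype_card, card_A3]
  obtain ⟨φ⟩ : Nonempty (A3 p ≃+ ZMod (p ^ 2 + p + 1)) := by
    have e := (zmodAddCyclicAddEquiv hcyc).symm
    rw [hcard] at e
    exact ⟨e⟩
  refine ⟨(D3 p).map φ.toEquiv.toEmbedding, ?_, ?_, ?_⟩
  · rw [Finset.card_map, card_D3]
  · intro g hg
    have hg' : φ.symm g ≠ 0 := by
      intro h
      apply hg
      rw [← φ.apply_symm_apply g, h, map_zero]
    have h1 := rep_card p (φ.symm g) hg'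
    obtain ⟨q, hq⟩ := Finset.card_pos.1 (by rw [h1]; exact Nat.one_pos)
    rw [Finset.mem_filter, Finset.mem_product] at hq
    refine ⟨φ q.2, Finset.mem_map.2 ⟨q.2, hq.1.2, rfl⟩, φ q.1, Finset.mem_map.2 ⟨q.1, hq.1.1, rfl⟩, ?_⟩
    rw [← map_sub, hq.2, φ.apply_symm_apply]
  · intro x hx y hy x' hx' y' hy' hxy h
    obtain ⟨a, ha, rfl⟩ := Finset.mem_map.1 hx
    obtain ⟨b, hb, rfl⟩ := Finset.mem_map.1 hy
    obtain ⟨a', ha', rfl⟩ := Finset.mem_map.1 hx'
    obtain ⟨b', hb', rfl⟩ := Finset.mem_map.1 hy'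
    have h1 : φ b - φ a = φ b' - φ a' := h
    rw [← map_sub, ← map_sub] at h1
    have h2 : b - a = b' - a' := φ.injective h1
    have hne : b - a ≠ 0 := by
      intro h0
      apply hxy
      rw [sub_eq_zero.1 h0]
    have h3 := rep_card p (b - a) hne
    obtain ⟨q, hq⟩ := Finset.card_eq_one.1 h3
    have h4 : (b, a) ∈ ({q} : Finset (A3 p × A3 p)) := by
      rw [← hq, Finset.mem_filter, Finset.mem_product]
      exact ⟨⟨hb, ha⟩, rfl⟩
    have h5 : (b', a') ∈ ({q} : Finset (A3 p × A3 p)) := by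
      rw [← hq, Finset.mem_filter, Finset.mem_product]
      exact ⟨⟨hb', ha'⟩, h2.symm⟩
    rw [Finset.mem_singleton] at h4 h5
    have h6 : (b, a) = (b', a') := h4.trans h5.symm
    rw [Prod.mk.injEq] at h6
    exact ⟨congrArg φ h6.2, congrArg φ h6.1⟩

end Pool.Agent.HDC
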