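import Mathlib

/-!
# PROJECT HDC (helper33): Hamiltonian graphs with distinct cycle lengths (MP_838d6f_co)

Every piece: file `Pool/Agent/HDC/NAME.lean`, `import Pool.Agent.HDC.Stm`, namespace `Pool.Agent.HDC`,
theorem `t_NAME (h1 : S_X) ... : S_NAME` (the used pieces are hypotheses).

Idea.  `k` chords.  Fix a chord `r`; for two other chords `c, c'` there is a cycle with the chords `r, c, c'`
or a cycle with the chords `c, c'` of length `|u c - u c'| + 2` (`S_KEY`).  Triples of the first kind are few.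
-/

set_option autoImplicit false

namespace Pool.Agent.HDC

/-- no two distinct cycles have the same length (cycles of the same length have the same edges) -/
def Dcl {V : Type} (G : SimpleGraph V) : Prop :=
  ∀ (u v : V) (p : G.Walk u u) (q : G.Walk v v), p.IsCycle → q.IsCycle → p.length = q.length →
    ∀ e, e ∈ p.edges ↔ e ∈ q.edges

/-- cyclic labelling of the vertices along a Hamilton cycle -/
structure Lab {V : Type} (G : SimpleGraph V) (n : ℕ) (φ : ℕ → V) : Prop where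
  three : 3 ≤ n
  per : ∀ i, φ (i + n) = φ i
  adj : ∀ i, G.Adj (φ i) (φ (i + 1))
  inj : ∀ i j, i < n → j < n → φ i = φ j → i = j
  surj : ∀ v, ∃ i, i < n ∧ φ i = v

/-- the edges of the Hamilton cycle -/
def Cy {V : Type} (φ : ℕ → V) : Set (Sym2 V) := {e | ∃ i, e = s(φ i, φ (i + 1))}

/-- there is a cycle of length `l` whose edges outside of the Hamilton cycle are exactly the elements of `T` -/
def HasCyc {V : Type} (G : SimpleGraph V) (φ : ℕ → V) (T : Set (Sym2 V)) (l : ℕ) : Prop :=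
  ∃ (u : V) (p : G.Walk u u), p.IsCycle ∧ p.length = l ∧ ∀ e, (e ∈ p.edges ∧ e ∉ Cy φ) ↔ e ∈ T

/-- chord -/
def Ch {V : Type} (G : SimpleGraph V) (φ : ℕ → V) (a b : ℕ) : Prop :=
  G.Adj (φ a) (φ b) ∧ s(φ a, φ b) ∉ Cy φ

/-- the arc between the positions `a, b` is disjoint from that between `c, d` -/
def Dj (a b c d : ℕ) : Prop := (a < c ∧ a < d ∧ b < c ∧ b < d) ∨ (c < a ∧ c < b ∧ d < a ∧ d < b)

/-- HAM (50 lines).  A Hamilton cycle gives a labelling.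
Proof. `G.IsHamiltonian` (card `n ≠ 1`) gives `p : G.Walk a a`, `p.IsHamiltonianCycle`; `p.length = n`
(`IsHamiltonianCycle.length_eq`).  `φ i = p.getVert (i % n)`.  Adjacency: `Walk.adj_getVert_succ`, and for
`i % n = n - 1` use `p.getVert n = a = p.getVert 0`.  Injectivity: `IsCycle.getVert_injOn'`.  Surjectivity:
injective `Fin n → Fin n`. -/
def S_HAM : Prop := ∀ (n : ℕ), 3 ≤ n → ∀ G : SimpleGraph (Fin n), G.IsHamiltonian →
  ∃ φ : ℕ → Fin n, Lab G n φ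

/-- ARC (60 lines).  The walk along the Hamilton cycle between two positions (in either direction).
Proof. For `a ≤ b` by induction on `b` (`Walk.concat` or `Walk.append`), support in the image of `[a, b]`, it is a path
because `φ` is injective on `[a, a + n)` (from `inj` and `per`); for `b < a` take the reverse. -/
def S_ARC : Prop := ∀ (V : Type) (G : SimpleGraph V) (n : ℕ) (φ : ℕ → V), Lab G n φ →
  ∀ z a b : ℕ, z ≤ a → a < z + n → z ≤ b → b < z + n →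
  ∃ p : G.Walk (φ a) (φ b), p.IsPath ∧ p.length = (a - b) + (b - a) ∧
    (∀ v ∈ p.support, ∃ i, ((a ≤ i ∧ i ≤ b) ∨ (b ≤ i ∧ i ≤ a)) ∧ v = φ i) ∧ ∀ e ∈ p.edges, e ∈ Cy φ

/-- CYC2 (60 lines), uses S_ARC.  Cycle of two arcs and two chords.
Proof. Let `w1, w2` be the arcs.  `q = w1.append (cons (b1~a2) w2)` is a path (disjoint supports because `φ` is injective on
`[z, z+n)`; `Walk.IsPath` via `support_append`, `List.nodup_append`), the cycle is `cons (b2~a1) q`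
(`Walk.cons_isCycle_iff`: `s(b2,a1) ∉ q.edges`, as `φ b2` is not in the support of `w1`, `φ a1` not in that of `w2`, and the two
chords are different).  The edges of arcs are in `Cy φ`, the chords are not. -/
def S_CYC2 : Prop := ∀ (V : Type) (G : SimpleGraph V) (n : ℕ) (φ : ℕ → V), Lab G n φ →
  ∀ z a1 b1 a2 b2 : ℕ, (z ≤ a1 ∧ a1 < z + n) → (z ≤ b1 ∧ b1 < z + n) → (z ≤ a2 ∧ a2 < z + n) →
  (z ≤ b2 ∧ b2 < z + n) → Dj a1 b1 a2 b2 → Ch G φ b1 a2 → Ch G φ b2 a1 →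
  s(φ b1, φ a2) ≠ s(φ b2, φ a1) →
  HasCyc G φ {s(φ b1, φ a2), s(φ b2, φ a1)} ((a1 - b1) + (b1 - a1) + (a2 - b2) + (b2 - a2) + 2)

/-- CYC3 (80 lines), uses S_ARC.  Cycle of three arcs and three chords.  Proof as for CYC2 (`s(b3,a1)` is not a chord
`s(b1,a2)`, `s(b2,a3)` because `φ b3` is not in the supports of `w1, w2` and `φ a1` is not in those of `w2, w3`). -/
def S_CYC3 : Prop := ∀ (V : Type) (G : SimpleGraph V) (n : ℕ) (φ : ℕ → V), Lab G n φ →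
  ∀ z a1 b1 a2 b2 a3 b3 : ℕ, (z ≤ a1 ∧ a1 < z + n) → (z ≤ b1 ∧ b1 < z + n) → (z ≤ a2 ∧ a2 < z + n) →
  (z ≤ b2 ∧ b2 < z + n) → (z ≤ a3 ∧ a3 < z + n) → (z ≤ b3 ∧ b3 < z + n) →
  Dj a1 b1 a2 b2 → Dj a1 b1 a3 b3 → Dj a2 b2 a3 b3 → Ch G φ b1 a2 → Ch G φ b2 a3 → Ch G φ b3 a1 →
  ∃ l, HasCyc G φ {s(φ b1, φ a2), s(φ b2, φ a3), s(φ b3, φ a1)} l

/-- KLL (60 lines), uses S_CYC2, S_CYC3.  Two chords on the same side of the root chord `(0, m)`.
Proof. Without loss of generality `x ≤ x'` (and `y' ≤ y` if `x = x'`).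
`y ≤ x'`: arcs `0→x`, `y→x'`, `y'→m` (CYC3, `z = 0`).
`x < x' < y < y'`: arcs `0→x`, `y→x'`, `y'→m`.
`x ≤ x' < y' ≤ y`: arcs `x'→x`, `y→y'` (CYC2). -/
def S_KLL : Prop := ∀ (V : Type) (G : SimpleGraph V) (n : ℕ) (φ : ℕ → V), Lab G n φ →
  ∀ m x y x' y' : ℕ, 0 < m → m < n → Ch G φ 0 m → x < y → y ≤ m → x' < y' → y' ≤ m →
  Ch G φ x y → Ch G φ x' y' → s(φ x, φ y) ≠ s(φ x', φ y') →
  s(φ x, φ y) ≠ s(φ 0, φ m) → s(φ x', φ y') ≠ s(φ 0, φ m) →
  (∃ l, HasCyc G φ {s(φ 0, φ m), s(φ x, φ y), s(φ x', φ y')} l) ∨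
    HasCyc G φ {s(φ x, φ y), s(φ x', φ y')}
      (((y - x) - (y' - x')) + ((y' - x') - (y - x)) + 2)

/-- KLR (30 lines), uses S_CYC2.  Chords on different sides.  Proof. Arcs `y→x'`, `y'→n+x` (CYC2, `z = y`; `φ (n+x) = φ x`;
`y < n`, `y' ≤ n`, `y' = n` and `x = 0` is possible; the chord `(x, y)` is `(n+x, y)`). -/
def S_KLR : Prop := ∀ (V : Type) (G : SimpleGraph V) (n : ℕ) (φ : ℕ → V), Lab G n φ →
  ∀ m x y x' y' : ℕ, 0 < m → m < n → x < y → y ≤ m → m ≤ x' → x' < y' → y' ≤ n →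
  Ch G φ x y → Ch G φ x' y' → s(φ x, φ y) ≠ s(φ x', φ y') →
    HasCyc G φ {s(φ x, φ y), s(φ x', φ y')} (n - (y' - x') - (y - x) + 2)

/-- KLX (80 lines), uses S_CYC3.  One chord `(x', y')` on the side `[0, m]`, one chord `(x, y)` crossing the root chord.
Proof. `y' ≤ x`: arcs `0→x'`, `y'→x`, `y→m` (`z = 0`).
`x ≤ x'`: arcs `x→x'`, `y'→m`, `n→y` (`z = x`).
`x' < x < y' < m`: arcs `0→x'`, `y'→x`, `y→m` (`z = 0`).
`x' < x < y' = m`, then `0 < x'` (the chord is not the root chord): arcs `x'→x`, `y→n`, `m→y'` (`z = x'`). -/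
def S_KLX : Prop := ∀ (V : Type) (G : SimpleGraph V) (n : ℕ) (φ : ℕ → V), Lab G n φ →
  ∀ m x y x' y' : ℕ, Ch G φ 0 m → 0 < x → x < m → m < y → y < n → x' < y' → y' ≤ m →
  Ch G φ x y → Ch G φ x' y' → s(φ x', φ y') ≠ s(φ 0, φ m) →
  ∃ l, HasCyc G φ {s(φ 0, φ m), s(φ x, φ y), s(φ x', φ y')} l

/-- KXX (60 lines), uses S_CYC3.  Two chords crossing the root chord.
Proof. Without loss of generality `x ≤ x'` (and `y' < y` if `x = x'`).
`x < x'`, `y < y'`: arcs `0→x`, `y→y'`, `x'→m` (`z = 0`).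
`x < x'`, `y' ≤ y`: arcs `0→x`, `y→y'`, `x'→m` (`z = 0`).
`x = x'`, `y' < y`: arcs `x→x'`, `y'→m`, `n→y` (`z = x`). -/
def S_KXX : Prop := ∀ (V : Type) (G : SimpleGraph V) (n : ℕ) (φ : ℕ → V), Lab G n φ →
  ∀ m x y x' y' : ℕ, Ch G φ 0 m → 0 < x → x < m → m < y → y < n → 0 < x' → x' < m → m < y' → y' < n →
  Ch G φ x y → Ch G φ x' y' → s(φ x, φ y) ≠ s(φ x', φ y') →
  ∃ l, HasCyc G φ {s(φ 0, φ m), s(φ x, φ y), s(φ x', φ y')} l

/-- KEY (120 lines), uses S_KLL, S_KLR, S_KLX, S_KXX.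
Proof. Shift the labelling so that `r = s(φ 0, φ m)`, `0 < m < n` (`Lab` and `Cy`, `HasCyc` do not change under `φ (· + t)`:
`Cy` because of the period).  Every chord is `s(φ x, φ y)` with `0 ≤ x < y < n`; it is of type L (`y ≤ m`), R (`m ≤ x < y ≤ n`, here
`x = 0, m < y` is written as `(y, n)`), or X (`0 < x < m < y < n`).  `u c = y - x` for L, `n - (y - x)` for R, `0` for X (choose one
representation for each chord).  LL: S_KLL.  LR: S_KLR.  LX: S_KLX.  XX: S_KXX.  RR and RX: S_KLL and S_KLX for the labelling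
`φ (· + m)` with `m' = n - m` (there `(x, y)` is `(x - m, y - m)`, and for type X `(y - m, x + n - m)`). -/
def S_KEY : Prop := ∀ (V : Type) (G : SimpleGraph V) (n : ℕ) (φ : ℕ → V), Lab G n φ →
  ∀ r, r ∈ G.edgeSet → r ∉ Cy φ → ∃ u : Sym2 V → ℕ, (∀ c, u c ≤ n) ∧
    ∀ c c', c ∈ G.edgeSet → c ∉ Cy φ → c' ∈ G.edgeSet → c' ∉ Cy φ → c ≠ c' → c ≠ r → c' ≠ r →
      (∃ l, HasCyc G φ {r, c, c'} l) ∨ HasCyc G φ {c, c'} ((u c - u c') + (u c' - u c) + 2)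

/-- WIN (80 lines).  Sidon sets with few exceptional pairs: windows.
Proof. For `t < n + ℓ` let `w t = #{i ∈ X | u i ≤ t ∧ t < u i + ℓ}`.  `∑ t, w t = |X| * ℓ`.
`∑ t, w t ^ 2 = ∑_{(i,j)} #{t | u i, u j ≤ t < u i + ℓ, u j + ℓ}`, which is `ℓ - |u i - u j|` (truncated).  Diagonal pairs: `|X| ℓ`.
Pairs in `B`: at most `|B| ℓ`.  The other pairs with `u i < u j`, `u j - u i = d < ℓ`: at most one pair for every `d ∈ [1, ℓ)`, so
`∑ ≤ ∑_{d=1}^{ℓ-1} (ℓ - d) ≤ ℓ(ℓ-1)/2`; the same for `u i > u j`; total `≤ ℓ²`.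
Cauchy-Schwarz (`sq_sum_le_card_mul_sum_sq`): `(|X| ℓ)² ≤ (n + ℓ) (|X| ℓ + ℓ² + |B| ℓ)`; divide by `ℓ`. -/
def S_WIN : Prop := ∀ (ι : Type) [DecidableEq ι] (X : Finset ι) (u : ι → ℕ) (B : Finset (ι × ι)) (n ℓ : ℕ),
  0 < ℓ → (∀ i ∈ X, u i ≤ n) →
  (∀ i ∈ X, ∀ j ∈ X, i ≠ j → (i, j) ∉ B → u i ≠ u j) →
  (∀ i ∈ X, ∀ j ∈ X, ∀ i' ∈ X, ∀ j' ∈ X, i ≠ j → i' ≠ j' → (i, j) ∉ B → (i', j') ∉ B →
    u i < u j → u i' < u j' → u j - u i = u j' - u i' → i = i' ∧ j = j') →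
  (∀ i j, (i, j) ∈ B → (j, i) ∈ B) →
  X.card ^ 2 * ℓ ≤ (n + ℓ) * (X.card + ℓ + B.card)

/-- CNT (120 lines), uses S_WIN, S_KEY.
Proof. `D` = edges not in `Cy φ` (a Finset), `k = |D|`.  `|E| ≤ n + k` as `Cy φ` is the image of `range n` (period).  Let
`T = {(r, c, c') ∈ D³ : distinct and ∃ l, HasCyc G φ {r, c, c'} l}`.  For `(r,c,c') ∈ T` choose `l ≤ n` (a cycle has at most `n` edges:
`support.tail` is without repetition).  By `Dcl` a fibre of `l` lies in `S ×ˢ S ×ˢ S`, `|S| ≤ 3`, so `|T| ≤ 27 (n+1)`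
(`Finset.card_le_mul_card_image`).  If `k = 0` take `b = 0`.  Otherwise there is `r ∈ D` with `k * b ≤ |T|`,
`B = {(c,c') : (r,c,c') ∈ T}`, `b = |B|` (average).  Apply S_WIN to `X = D.erase r`, `u` of S_KEY for `r`.  For pairs not in `B` there is
a cycle with chords `c, c'` and length `|u c - u c'| + 2`, at least 3 (`IsCycle.three_le_length`); two such cycles of the same length have the same
chords. -/
def S_CNT : Prop := ∀ (n : ℕ) (G : SimpleGraph (Fin n)) (φ : ℕ → Fin n), Lab G n φ → Dcl G →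
  ∃ k b : ℕ, G.edgeSet.ncard ≤ n + k ∧ k * b ≤ 27 * (n + 1) ∧
    ∀ ℓ, 0 < ℓ → (k - 1) ^ 2 * ℓ ≤ (n + ℓ) * ((k - 1) + ℓ + b)

/-- FIN (60 lines).  The final inequality.
Proof. Let `s = n^(1/4)`, `s ≥ 1`, `K = k - 1`.  Suppose `k > s² + 100 s`.  Then `b ≤ 27 (n+1) / k ≤ 36 s²` (`n + 1 ≤ 4n/3`).
`ℓ = n`: `K² ≤ 2 (K + n + b) ≤ 2K + 2 s⁴ + 72 s²`, so `(K-1)² ≤ 75 s⁴`, `K ≤ 10 s²`.
`ℓ = ⌈s³⌉`, `s³ ≤ ℓ ≤ s³ + 1 ≤ 2 s³`: `K² ≤ (s⁴ + ℓ)(1 + (K+b)/ℓ) ≤ (s⁴ + 2 s³)(1 + 46/s) ≤ s⁴ + 140 s³ `, so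
`K ≤ s² + 70 s`, contradiction. -/
def S_FIN : Prop := ∀ n k b : ℕ, 3 ≤ n → k * b ≤ 27 * (n + 1) →
  (∀ ℓ, 0 < ℓ → (k - 1) ^ 2 * ℓ ≤ (n + ℓ) * ((k - 1) + ℓ + b)) →
  (k : ℝ) ≤ (n : ℝ) ^ (1 / 2 : ℝ) + 100 * (n : ℝ) ^ (1 / 4 : ℝ)

/-! ## Lower bound: fans -/

/-- distinct differences -/
def Sid (A : Finset ℕ) : Prop := ∀ a ∈ A, ∀ b ∈ A, ∀ c ∈ A, ∀ d ∈ A, a < b → c < d →
  b - a = d - c → a = c ∧ b = d

/-- RUZ (80 lines).  Ruzsa's Sidon sets.
Proof. Let `g` be a generator of `(ZMod p)ˣ` (cyclic), and for `i < p - 1` let `a_i < p (p-1)` be the number with `a_i ≡ i mod (p-1)`,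
`a_i ≡ g^i mod p` (Chinese remainder: `Nat.chineseRemainder`, `p` and `p-1` coprime).  If `b - a = d - c` then `a + d = b + c`; modulo
`p - 1` the indices have the same sum, so `g^i g^l = g^j g^k` (order of `g` is `p-1`), and modulo `p` also `g^i + g^l = g^j + g^k`, so
`(g^i - g^j)(g^i - g^k) = 0`: `i = j` (then `a = b`, impossible) or `i = k` (`a = c`). -/
def S_RUZ : Prop := ∀ p : ℕ, p.Prime → 3 ≤ p → ∃ A : Finset ℕ, A.card = p - 1 ∧
  (∀ a ∈ A, a < p * (p - 1)) ∧ Sid A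

/-- the fan: path `1, ..., n-1` and the vertex `0` joined to the elements of `A` -/
def fan (n : ℕ) (A : Finset ℕ) : SimpleGraph (Fin n) :=
  SimpleGraph.fromRel (fun x y => (1 ≤ (x : ℕ) ∧ (y : ℕ) = x + 1) ∨ ((x : ℕ) = 0 ∧ (y : ℕ) ∈ A))

/-- FANH (60 lines).  The fan is Hamiltonian.
Proof. The cycle `0, 1, ..., n-1, 0`: build the path `1, ..., n-1` by recursion, add the edges `0~1`, `(n-1)~0`;
`isHamiltonianCycle_iff_isCycle_and_length_eq` or support counts. -/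
def S_FANH : Prop := ∀ (n : ℕ) (A : Finset ℕ), 3 ≤ n → 1 ∈ A → n - 1 ∈ A → (fan n A).IsHamiltonian

/-- FANE (60 lines).  Number of edges.
Proof. The edge set contains the disjoint images of `{i | 1 ≤ i, i + 1 < n}` (`n - 2` elements, `i ↦ s(i, i+1)`) and of `A`
(`a ↦ s(0, a)`). -/
def S_FANE : Prop := ∀ (n : ℕ) (A : Finset ℕ), 3 ≤ n → (∀ a ∈ A, 1 ≤ a ∧ a < n) →
  n - 2 + A.card ≤ (fan n A).edgeSet.ncard

/-- FAND (150 lines).  The cycles of the fan.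
Proof. Let `p` be a cycle.  Every vertex of its support has exactly two neighbours in it
(`IsCycle.ncard_neighborSet_toSubgraph_eq_two`).  Let `b` be the largest vertex of the support: `b ≠ 0`, its neighbours of the cycle are among
`0, b - 1`, so `b ≥ 2`, `0` and `b - 1` are its neighbours, `b ∈ A`.  Let `a` be the least positive vertex of the support: its neighbours are
`0, a + 1`, so `a ∈ A`, `a < b`.  The neighbours of `0` are `a, b`.  A vertex `i` of the support with `a < i < b` is not a neighbour of `0`,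
so its neighbours are `i - 1, i + 1`; by induction all `i ∈ [a, b]` are in the support.  So the edges are `s(0,a), s(0,b)` and
`s(i, i+1)`, `a ≤ i < b`, and the length (number of edges, no repetition) is `b - a + 2`.  Two cycles of the same length have the same
`a, b` by `Sid A`. -/
def S_FAND : Prop := ∀ (n : ℕ) (A : Finset ℕ), 3 ≤ n → (∀ a ∈ A, 1 ≤ a ∧ a < n) → Sid A → Dcl (fan n A)

/-- LOW (80 lines), uses S_RUZ, S_FANH, S_FANE, S_FAND.
Proof. (1) Choose a prime `p ≥ max N 3`, `A` of S_RUZ, `A' = A` shifted so that the least element is `1`,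
`n = max A' + 1 ≤ p (p-1) + 1 ≤ p²`.  `p - 1 = |A'| ≤ n - 1`.  The fan has at least `n - 2 + p - 1 ≥ n + √n - 3` edges.
(2) If `√(n/8) ≤ 2`, take `A = {1, n-1}` (a cycle: `n - 2 + 2` edges; for `n = 3` also).  Otherwise Bertrand
(`Nat.exists_prime_lt_and_le_two_mul`) gives a prime `p` with `m < p ≤ 2m`, `m = ⌊√(n/8)⌋` (`Nat.sqrt (n/8)`), `m ≥ 2`, so `p ≥ 3`;
`2 p (p-1) + 2 ≤ 8 m² - 2 p + 2 ≤ n`; `A' ∪ {n-1}`, `A'` as above in `[1, p(p-1)]`, is a Sidon set, because the new differences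
`n - 1 - a ≥ n - 1 - p(p-1) ≥ p(p-1)` are larger than the old ones.  At least `n - 2 + p` edges. -/
def S_LOW : Prop :=
  (∀ N : ℕ, ∃ n, N ≤ n ∧ 3 ≤ n ∧ ∃ G : SimpleGraph (Fin n), G.IsHamiltonian ∧ Dcl G ∧
    (n : ℝ) + Real.sqrt n - 3 ≤ (G.edgeSet.ncard : ℝ)) ∧
  ∀ n : ℕ, 3 ≤ n → ∃ G : SimpleGraph (Fin n), G.IsHamiltonian ∧ Dcl G ∧
    (n : ℝ) + Real.sqrt (n / 8) - 2 ≤ (G.edgeSet.ncard : ℝ)

end Pool.Agent.HDC
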