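import Pool.Agent.HDC.Stm

/-!
# PROJECT HDC, part 2 (helper33): the asymptotic lower bound `h(n) ≥ n + (1 - ε) √n` for all large `n`
-/

set_option autoImplicit false

namespace Pool.Agent.HDC

/-- SING (60 lines).  Singer's perfect difference set in `ZMod (p^2+p+1)`.
Proof. Import `Pool.Agent.R114.SIC.Sidon` (on main): `A3 p` is an additive group with `p^2+p+1` elements (`card_A3`), `D3 p` has `p+1`
elements (`card_D3`), `rep_card p g hg`: every `g ≠ 0` is exactly once a difference (all with `[Fact p.Prime]`).  `A3 p` is cyclic: it is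
`Additive` of a quotient of the cyclic group `(L3 p)ˣ` (units of a finite field), so there is an additive isomorphism with
`ZMod (p^2+p+1)` (`zmodAddCyclicAddEquiv`, or `zmodCyclicAddEquiv`); take the image of `D3 p`. -/
def S_SING : Prop := ∀ p : ℕ, p.Prime → ∃ R : Finset (ZMod (p ^ 2 + p + 1)), R.card = p + 1 ∧
  (∀ g : ZMod (p ^ 2 + p + 1), g ≠ 0 → ∃ x ∈ R, ∃ y ∈ R, y - x = g) ∧
  ∀ x ∈ R, ∀ y ∈ R, ∀ x' ∈ R, ∀ y' ∈ R, x ≠ y → y - x = y' - x' → x = x' ∧ y = y'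

/-- MARK (100 lines), uses S_SING.  Sidon sets in `[1, L+1]` with both end points.
Proof. `M = p^2+p+1`, `x, y ∈ R` with `y - x = L`.  For `t ∈ [1, M]` let `P t` mean `x + (t - 1) ∈ R`.  `A = {t ∈ [1, L+1] : P t}` contains
`1` and `L+1`.  It is a Sidon set (the differences are in `[1, L]`, non-zero modulo `M`, and `t ↦ x + (t-1)` is injective on `[1, M]`).
`C = {t ∈ [L+2, M] : P t}` is a Sidon set, too; `|A| + |C| = |R| = p + 1`.  The differences `t' - t` of pairs `t < t'` in `C` are different numbers in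
`[1, M - L]`, so `|C| (|C| - 1) / 2 ≤ M - L` and `(p - |A|)² = (|C| - 1)² ≤ 2 (M - L)` (if `|C| = 0` the left side is `0`). -/
def S_MARK : Prop := ∀ p : ℕ, p.Prime → ∀ L : ℕ, 1 ≤ L → L < p ^ 2 + p + 1 →
  ∃ A : Finset ℕ, 1 ∈ A ∧ L + 1 ∈ A ∧ (∀ a ∈ A, 1 ≤ a ∧ a ≤ L + 1) ∧ Sid A ∧
    (p - A.card) ^ 2 ≤ 2 * (p ^ 2 + p + 1 - L)

/-- LOWA (80 lines), uses S_MARK, S_FANH, S_FANE, S_FAND and the prime number theorem in the form
`Pool.Agent.H119R2.Kp.prime_between` (import `Pool.Agent.H119R2.Kp.NT`, on main): for `δ > 0` and `x ≥ N(δ)` there is a prime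
`x < p < (1 + δ) x`.
Proof. Let `ε ≤ 1`, `δ = ε² / 64`, `x = √n`, `L = n - 2`.  `p² > n > L`.  `p² + p + 1 - L ≤ (1+δ)² n + (1+δ) √n + 3 - n ≤ 4 δ n` for large `n`
(`(1+δ)² - 1 = 2δ + δ² ≤ 3δ`).  So `p - |A| ≤ √(8 δ n) ≤ (ε/2) √n`, and the fan of `A` has at least
`n - 2 + |A| ≥ n - 2 + √n - (ε/2) √n ≥ n + (1 - ε) √n` edges for large `n`. -/
def S_LOWA : Prop := ∀ ε : ℝ, 0 < ε → ∃ N : ℕ, ∀ n : ℕ, N ≤ n →
  ∃ G : SimpleGraph (Fin n), G.IsHamiltonian ∧ Dcl G ∧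
    (n : ℝ) + (1 - ε) * Real.sqrt n ≤ (G.edgeSet.ncard : ℝ)

end Pool.Agent.HDC
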