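import Pool.Agent.HDC.Stm

/-!
# HDC, piece WIN (helper70)
-/

set_option autoImplicit false

namespace Pool.Agent.HDC

namespace WINP

variable {ι : Type}

/-- Indicator of the window. -/
def ind (u : ι → ℕ) (l : ℕ) (i : ι) (t : ℕ) : ℕ := if u i ≤ t ∧ t < u i + l then 1 else 0

lemma sum_ind (u : ι → ℕ) (n l : ℕ) (i : ι) (hi : u i ≤ n) :
    ∑ t ∈ Finset.range (n + l), ind u l i t = l := by
  unfold ind
  rw [← Finset.card_filter]
  have : (Finset.range (n + l)).filter (fun t => u i ≤ t ∧ t < u i + l) =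
      Finset.Ico (u i) (u i + l) := by
    ext t
    simp only [Finset.mem_filter, Finset.mem_range, Finset.mem_Ico]
    omega
  rw [this, Nat.card_Ico]
  omega

lemma sum_ind2 (u : ι → ℕ) (n l : ℕ) (i j : ι) :
    ∑ t ∈ Finset.range (n + l), ind u l i t * ind u l j t ≤
      (min (u i) (u j) + l) - max (u i) (u j) := by
  have h1 : ∀ t, ind u l i t * ind u l j t =
      if (u i ≤ t ∧ t < u i + l) ∧ (u j ≤ t ∧ t < u j + l) then 1 else 0 := by
    intro t
    unfold ind
    by_cases h1 : u i ≤ t ∧ t < u i + l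
    · by_cases h2 : u j ≤ t ∧ t < u j + l
      · rw [if_pos h1, if_pos h2, if_pos ⟨h1, h2⟩]
      · rw [if_pos h1, if_neg h2, if_neg (fun h => h2 h.2)]
    · rw [if_neg h1, zero_mul, if_neg (fun h => h1 h.1)]
  rw [Finset.sum_congr rfl fun t _ => h1 t, ← Finset.card_filter]
  calc _ ≤ (Finset.Ico (max (u i) (u j)) (min (u i) (u j) + l)).card := by
        refine Finset.card_le_card fun t ht => ?_
        simp only [Finset.mem_filter, Finset.mem_range] at ht
        rw [Finset.mem_Ico]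
        omega
    _ = _ := by rw [Nat.card_Ico]

lemma sum_inj (P : Finset (ι × ι)) (d : ι × ι → ℕ) (l : ℕ)
    (hd : ∀ x ∈ P, ∀ y ∈ P, d x = d y → x = y) (hd0 : ∀ x ∈ P, 0 < d x) :
    ∑ x ∈ P, (l - d x) ≤ ∑ e ∈ Finset.Ico 1 l, (l - e) := by
  rw [← Finset.sum_image (s := P) (g := d) (f := fun e => l - e) (fun x hx y hy h => hd x hx y hy h)]
  refine Finset.sum_le_sum_of_ne_zero fun e he h0 => ?_
  obtain ⟨x, hx, rfl⟩ := Finset.mem_image.1 he
  have := hd0 x hx
  rw [Finset.mem_Ico]
  omega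

lemma sum_Ico (l : ℕ) : 2 * ∑ e ∈ Finset.Ico 1 l, (l - e) ≤ l * l := by
  induction l with
  | zero => simp
  | succ l ih =>
    rcases Nat.eq_zero_or_pos l with h | h
    · subst h
      simp
    · rw [Finset.sum_Ico_succ_top (by omega)]
      have h1 : ∑ e ∈ Finset.Ico 1 l, (l + 1 - e) = ∑ e ∈ Finset.Ico 1 l, (l - e) + (l - 1) := by
        have h2 : ∀ e ∈ Finset.Ico 1 l, l + 1 - e = (l - e) + 1 := by
          intro e he
          rw [Finset.mem_Ico] at he
          omega
        rw [Finset.sum_congr rfl h2, Finset.sum_add_distrib]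
        simp
      rw [h1]
      have h3 : l + 1 - l = 1 := by omega
      rw [h3]
      have h4 : (l + 1) * (l + 1) = l * l + 2 * l + 1 := by ring
      rw [h4]
      omega

end WINP

open WINP in
theorem t_WIN : S_WIN := by
  intro ι _ X u B n l hl hu hne hsid hsym
  classical
  -- first moment
  have h1 : ∑ t ∈ Finset.range (n + l), ∑ i ∈ X, ind u l i t = X.card * l := by
    rw [Finset.sum_comm, Finset.sum_congr rfl fun i hi => sum_ind u n l i (hu i hi)]
    rw [Finset.sum_const, smul_eq_mul]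
  -- the pairs
  set P1 := (X ×ˢ X).filter (fun x => x ∉ B ∧ u x.1 < u x.2) with hP1
  set P2 := (X ×ˢ X).filter (fun x => x ∉ B ∧ u x.2 < u x.1) with hP2
  have hs1 : ∑ x ∈ P1, (l - (u x.2 - u x.1)) ≤ ∑ e ∈ Finset.Ico 1 l, (l - e) := by
    refine sum_inj P1 (fun x => u x.2 - u x.1) l ?_ ?_
    · rintro ⟨i, j⟩ hx ⟨i', j'⟩ hy h
      rw [hP1, Finset.mem_filter, Finset.mem_product] at hx hy
      simp only at hx hy h
      have hij : i ≠ j := fun h => by rw [h] at hx; exact lt_irrefl _ hx.2.2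
      have hij' : i' ≠ j' := fun h => by rw [h] at hy; exact lt_irrefl _ hy.2.2
      obtain ⟨h1, h2⟩ := hsid i hx.1.1 j hx.1.2 i' hy.1.1 j' hy.1.2 hij hij' hx.2.1 hy.2.1
        hx.2.2 hy.2.2 h
      rw [h1, h2]
    · rintro ⟨i, j⟩ hx
      rw [hP1, Finset.mem_filter] at hx
      simp only at hx ⊢
      omega
  have hs2 : ∑ x ∈ P2, (l - (u x.1 - u x.2)) ≤ ∑ e ∈ Finset.Ico 1 l, (l - e) := by
    refine sum_inj P2 (fun x => u x.1 - u x.2) l ?_ ?_
    · rintro ⟨i, j⟩ hx ⟨i', j'⟩ hy h
      rw [hP2, Finset.mem_filter, Finset.mem_product] at hx hy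
      simp only at hx hy h
      have hij : j ≠ i := fun h => by rw [h] at hx; exact lt_irrefl _ hx.2.2
      have hij' : j' ≠ i' := fun h => by rw [h] at hy; exact lt_irrefl _ hy.2.2
      obtain ⟨h1, h2⟩ := hsid j hx.1.2 i hx.1.1 j' hy.1.2 i' hy.1.1 hij hij'
        (fun hb => hx.2.1 (hsym _ _ hb)) (fun hb => hy.2.1 (hsym _ _ hb)) hx.2.2 hy.2.2 h
      rw [h1, h2]
    · rintro ⟨i, j⟩ hx
      rw [hP2, Finset.mem_filter] at hx
      simp only at hx ⊢
      omega
  -- second moment
  have h2 : ∑ t ∈ Finset.range (n + l), (∑ i ∈ X, ind u l i t) ^ 2 ≤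
      X.card * l + B.card * l + l * l := by
    have e1 : ∀ t, (∑ i ∈ X, ind u l i t) ^ 2 = ∑ x ∈ X ×ˢ X, ind u l x.1 t * ind u l x.2 t := by
      intro t
      rw [sq, Finset.sum_mul_sum, Finset.sum_product]
    rw [Finset.sum_congr rfl fun t _ => e1 t, Finset.sum_comm]
    have e2 : ∀ x ∈ X ×ˢ X, ∑ t ∈ Finset.range (n + l), ind u l x.1 t * ind u l x.2 t ≤
        (if x.1 = x.2 then l else 0) + (if x ∈ B then l else 0) +
        (if x ∉ B ∧ u x.1 < u x.2 then l - (u x.2 - u x.1) else 0) +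
        (if x ∉ B ∧ u x.2 < u x.1 then l - (u x.1 - u x.2) else 0) := by
      rintro ⟨i, j⟩ hx
      rw [Finset.mem_product] at hx
      refine (sum_ind2 u n l i j).trans ?_
      by_cases hB : (i, j) ∈ B
      · simp only [hB, not_true_eq_false, false_and, if_true, if_false]
        omega
      · by_cases hij : i = j
        · subst hij
          simp only [if_true]
          omega
        · have h3 := hne i hx.1 j hx.2 hij hB
          simp only [hB, not_false_eq_true, true_and, if_false, hij]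
          rcases Nat.lt_or_gt_of_ne h3 with h4 | h4
          · rw [if_pos h4, if_neg (by omega)]
            omega
          · rw [if_neg (by omega), if_pos h4]
            omega
    refine (Finset.sum_le_sum e2).trans ?_
    rw [Finset.sum_add_distrib, Finset.sum_add_distrib, Finset.sum_add_distrib]
    have e3 : ∑ x ∈ X ×ˢ X, (if x.1 = x.2 then l else 0) ≤ X.card * l := by
      rw [Finset.sum_product]
      refine (Finset.sum_le_card_nsmul X _ l fun i hi => ?_).trans_eq (by rw [smul_eq_mul])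
      simp only
      rw [Finset.sum_ite_eq, if_pos hi]
    have e4 : ∑ x ∈ X ×ˢ X, (if x ∈ B then l else 0) ≤ B.card * l := by
      rw [← Finset.sum_filter, Finset.sum_const, smul_eq_mul]
      refine Nat.mul_le_mul_right _ (Finset.card_le_card fun x hx => (Finset.mem_filter.1 hx).2)
    have e5 : ∑ x ∈ X ×ˢ X, (if x ∉ B ∧ u x.1 < u x.2 then l - (u x.2 - u x.1) else 0) =
        ∑ x ∈ P1, (l - (u x.2 - u x.1)) := by
      rw [hP1, Finset.sum_filter]
    have e6 : ∑ x ∈ X ×ˢ X, (if x ∉ B ∧ u x.2 < u x.1 then l - (u x.1 - u x.2) else 0) =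
        ∑ x ∈ P2, (l - (u x.1 - u x.2)) := by
      rw [hP2, Finset.sum_filter]
    rw [e5, e6]
    have e7 := sum_Ico l
    omega
  -- Cauchy-Schwarz
  have h3 : (X.card * l) ^ 2 ≤ (n + l) * (X.card * l + B.card * l + l * l) := by
    have h4 := sq_sum_le_card_mul_sum_sq (s := Finset.range (n + l))
      (f := fun t => ∑ i ∈ X, ind u l i t)
    rw [h1, Finset.card_range] at h4
    exact h4.trans (Nat.mul_le_mul_left _ h2)
  have h5 : (X.card ^ 2 * l) * l ≤ ((n + l) * (X.card + l + B.card)) * l := by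
    calc (X.card ^ 2 * l) * l = (X.card * l) ^ 2 := by ring
      _ ≤ _ := h3
      _ = _ := by ring
  exact Nat.le_of_mul_le_mul_right h5 hl

end Pool.Agent.HDC
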